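import Pool.Agent.Lib.MP_8b37c6_anP.C

/-!
# MP_8b37c6_an, plane case: a function with values in a strip, real at the centre, is small on the half disc
-/

namespace TBQ

open Complex Metric Real Set TBP

theorem T_zero : T 0 = 0 := by simp [T]

theorem T_norm_le {w : ℂ} {m : ℝ} (hm1 : m ≤ 1) (hw : ‖w‖ ≤ m) : ‖T w‖ ≤ m := by
  rcases lt_or_ge ‖w‖ 1 with h | h
  · refine le_trans ?_ hw
    refine Complex.norm_le_norm_of_mapsTo_ball (f := T) (R := 1) ?_ ?_ T_zero h
    · intro z hz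
      have hz1 : ‖z‖ < 1 := by simpa using hz
      exact (T_diff ((Complex.abs_re_le_norm z).trans hz1.le)).differentiableWithinAt
    · intro z hz
      have hz1 : ‖z‖ < 1 := by simpa using hz
      rw [mem_closedBall_zero_iff]
      exact T_le_one ((Complex.abs_re_le_norm z).trans hz1.le)
  · have hm : m = 1 := by linarith
    rw [hm]
    exact T_le_one ((Complex.abs_re_le_norm w).trans (by linarith))

/-- the real inequality behind the lens -/
theorem lens_real {X X0 Y r : ℝ} (hr : r = Real.exp (-Y)) (hX : |X| ≤ π / 2)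
    (h : 4 * (r ^ 2 + 1 - 2 * r * Real.cos (X - X0)) ≤ r ^ 2 + 1 + 2 * r * Real.cos (X + X0)) :
    X ^ 2 + Y ^ 2 ≤ (π / 2) ^ 2 := by
  have hp := Real.pi_pos
  have hp3 := Real.pi_gt_three
  have hr0 : 0 < r := by rw [hr]; exact Real.exp_pos _
  have hrr : r * Real.exp Y = 1 := by
    rw [hr, ← Real.exp_add]; simp
  have hcosh : 2 * r * Real.cosh Y = r ^ 2 + 1 := by
    rw [Real.cosh_eq, ← hr]
    linear_combination hrr
  have h1 : 3 * Real.cosh Y ≤ 5 * (Real.cos X * Real.cos X0) + 3 * (Real.sin X * Real.sin X0) := by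
    rw [Real.cos_sub, Real.cos_add] at h
    have h2 : r * (3 * Real.cosh Y) ≤
        r * (5 * (Real.cos X * Real.cos X0) + 3 * (Real.sin X * Real.sin X0)) := by
      nlinarith
    exact le_of_mul_le_mul_left h2 hr0
  have hc1 := Real.one_le_cosh Y
  have hs0 := Real.sin_sq_add_cos_sq X0
  have hsX := Real.sin_sq_add_cos_sq X
  have h3 : (3 * Real.cosh Y) ^ 2 ≤
      (5 * (Real.cos X * Real.cos X0) + 3 * (Real.sin X * Real.sin X0)) ^ 2 :=
    pow_le_pow_left₀ (by linarith) h1 2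
  have h4 : (5 * (Real.cos X * Real.cos X0) + 3 * (Real.sin X * Real.sin X0)) ^ 2 ≤
      25 * Real.cos X ^ 2 + 9 * Real.sin X ^ 2 := by
    have h5 : (5 * (Real.cos X * Real.cos X0) + 3 * (Real.sin X * Real.sin X0)) ^ 2 +
        (5 * Real.cos X * Real.sin X0 - 3 * Real.sin X * Real.cos X0) ^ 2 =
        (25 * Real.cos X ^ 2 + 9 * Real.sin X ^ 2) * (Real.sin X0 ^ 2 + Real.cos X0 ^ 2) := by
      ring
    rw [hs0, mul_one] at h5
    nlinarith [sq_nonneg (5 * Real.cos X * Real.sin X0 - 3 * Real.sin X * Real.cos X0)]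
  have h6 : 9 * Real.sinh Y ^ 2 ≤ 16 * Real.cos X ^ 2 := by
    have h7 := Real.cosh_sq Y
    nlinarith
  have h8 : Y ^ 2 ≤ Real.sinh Y ^ 2 := by
    rcases le_total 0 Y with hY | hY
    · exact pow_le_pow_left₀ hY (Real.self_le_sinh_iff.2 hY) 2
    · have := Real.sinh_le_self_iff.2 hY
      nlinarith
  have h9 : Real.cos X ^ 2 ≤ 1 - 4 / π ^ 2 * X ^ 2 := by
    have h10 := Real.cos_le_one_sub_mul_cos_sq (x := 2 * X) (by
      rw [abs_mul, abs_two]; linarith)
    have h11 := Real.cos_two_mul X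
    rw [h11] at h10
    have e : 2 / π ^ 2 * (2 * X) ^ 2 = 2 * (4 / π ^ 2 * X ^ 2) := by ring
    rw [e] at h10
    linarith
  set A := 4 / π ^ 2 * X ^ 2 with hA
  have hXA : X ^ 2 = π ^ 2 / 4 * A := by rw [hA]; field_simp
  have hA1 : A ≤ 1 := by
    nlinarith [sq_nonneg (Real.cos X)]
  have hpp : 9 < π ^ 2 := by nlinarith
  have h12 : Y ^ 2 ≤ 16 / 9 * (1 - A) := by linarith
  nlinarith [mul_nonneg (sub_nonneg.2 hA1) (show (0:ℝ) ≤ π ^ 2 / 4 - 16 / 9 by linarith)]

theorem lens_strict {F : ℂ → ℂ} {a m : ℝ} (ha : 0 < a) (hm : 0 < m)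
    (hF : DifferentiableOn ℂ F (ball 0 a)) (hre : ∀ z ∈ ball (0 : ℂ) a, |(F z).re| < m)
    (h0 : (F 0).im = 0) {z : ℂ} (hz : ‖z‖ ≤ a / 2) : ‖F z‖ ≤ m := by
  have hp := Real.pi_pos
  set W : ℂ → ℂ := fun z => ((π / 2 / m : ℝ) : ℂ) * F z with hW
  have hWre : ∀ z, (W z).re = π / 2 / m * (F z).re := fun z => by simp [hW]
  have hWim : ∀ z, (W z).im = π / 2 / m * (F z).im := fun z => by simp [hW]
  have hWlt : ∀ z ∈ ball (0 : ℂ) a, |(W z).re| < π / 2 := by
    intro z hz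
    have hpm : 0 < π / 2 / m := by positivity
    rw [hWre, abs_mul, abs_of_pos hpm]
    have := mul_lt_mul_of_pos_left (hre z hz) hpm
    have e : π / 2 / m * m = π / 2 := by field_simp
    linarith
  set h : ℂ → ℂ := fun z => exp (I * W z) with hh
  have hhre : ∀ z, (h z).re = Real.exp (-(W z).im) * Real.cos (W z).re := by
    intro z
    simp only [hh, Complex.exp_re]
    congr 1
    · simp
    · simp
  have hhim : ∀ z, (h z).im = Real.exp (-(W z).im) * Real.sin (W z).re := by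
    intro z
    simp only [hh, Complex.exp_im]
    congr 1
    · simp
    · simp
  have hpos : ∀ z ∈ ball (0 : ℂ) a, 0 < (h z).re := by
    intro z hz
    rw [hhre]
    have h1 := abs_lt.1 (hWlt z hz)
    exact mul_pos (Real.exp_pos _) (Real.cos_pos_of_mem_Ioo ⟨h1.1, h1.2⟩)
  have hmem0 : (0 : ℂ) ∈ ball (0 : ℂ) a := by simpa using ha
  have hza : z ∈ ball (0 : ℂ) a := by
    rw [mem_ball_zero_iff]; linarith
  have hden : ∀ z ∈ ball (0 : ℂ) a, 0 < ‖h z + (starRingEnd ℂ) (h 0)‖ := by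
    intro z hz
    refine lt_of_lt_of_le ?_ (Complex.re_le_norm _)
    simp only [add_re, conj_re]
    have := hpos z hz
    have := hpos 0 hmem0
    linarith
  have hden0 : ∀ z ∈ ball (0 : ℂ) a, h z + (starRingEnd ℂ) (h 0) ≠ 0 := fun z hz =>
    norm_pos_iff.1 (hden z hz)
  set φ : ℂ → ℂ := fun z => (h z - h 0) / (h z + (starRingEnd ℂ) (h 0)) with hφ
  have hhd : DifferentiableOn ℂ h (ball 0 a) := by
    intro z hz
    have : DifferentiableWithinAt ℂ F (ball 0 a) z := hF z hz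
    exact ((this.const_mul _).const_mul I).cexp
  have hφd : DifferentiableOn ℂ φ (ball 0 a) :=
    (hhd.sub_const _).div (hhd.add_const _) hden0
  have hφ0 : φ 0 = 0 := by simp [hφ]
  have hφ1 : MapsTo φ (ball 0 a) (closedBall (φ 0) 1) := by
    intro z hz
    rw [hφ0, mem_closedBall_zero_iff]
    simp only [hφ]
    rw [norm_div, div_le_one (hden z hz), ← sq_le_sq₀ (norm_nonneg _) (norm_nonneg _),
      ← Complex.normSq_eq_norm_sq, ← Complex.normSq_eq_norm_sq, Complex.normSq_apply,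
      Complex.normSq_apply]
    simp only [sub_re, sub_im, add_re, add_im, conj_re, conj_im]
    have h1 := hpos z hz
    have h2 := hpos 0 hmem0
    nlinarith [mul_pos h1 h2]
  have hS := Complex.dist_le_div_mul_dist_of_mapsTo_ball hφd hφ1 hza
  rw [hφ0, dist_zero_right, dist_zero_right] at hS
  have hS2 : ‖φ z‖ ≤ 1 / 2 := by
    refine hS.trans ?_
    rw [one_div_mul_eq_div, div_le_iff₀ ha]
    linarith
  have hS3 : 2 * ‖h z - h 0‖ ≤ ‖h z + (starRingEnd ℂ) (h 0)‖ := by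
    simp only [hφ] at hS2
    rw [norm_div, div_le_iff₀ (hden z hza)] at hS2
    linarith
  have hS4 : 4 * ‖h z - h 0‖ ^ 2 ≤ ‖h z + (starRingEnd ℂ) (h 0)‖ ^ 2 := by
    have := pow_le_pow_left₀ (by positivity) hS3 2
    rw [mul_pow] at this
    linarith
  have hW0 : (W 0).im = 0 := by rw [hWim, h0, mul_zero]
  set r := Real.exp (-(W z).im) with hr
  have e1 : ‖h z - h 0‖ ^ 2 = r ^ 2 + 1 - 2 * r * Real.cos ((W z).re - (W 0).re) := by
    rw [← Complex.normSq_eq_norm_sq, Complex.normSq_apply]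
    simp only [sub_re, sub_im, hhre, hhim, hW0, ← hr]
    rw [neg_zero, Real.exp_zero, Real.cos_sub]
    have c1 := Real.sin_sq_add_cos_sq (W z).re
    have c2 := Real.sin_sq_add_cos_sq (W 0).re
    linear_combination r ^ 2 * c1 + c2
  have e2 : ‖h z + (starRingEnd ℂ) (h 0)‖ ^ 2 =
      r ^ 2 + 1 + 2 * r * Real.cos ((W z).re + (W 0).re) := by
    rw [← Complex.normSq_eq_norm_sq, Complex.normSq_apply]
    simp only [add_re, add_im, conj_re, conj_im, hhre, hhim, hW0, ← hr]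
    rw [neg_zero, Real.exp_zero, Real.cos_add]
    have c1 := Real.sin_sq_add_cos_sq (W z).re
    have c2 := Real.sin_sq_add_cos_sq (W 0).re
    linear_combination r ^ 2 * c1 + c2
  rw [e1, e2] at hS4
  have hfin := lens_real hr (hWlt z hza).le hS4
  have hWn : ‖W z‖ ^ 2 = (W z).re ^ 2 + (W z).im ^ 2 := by
    rw [← Complex.normSq_eq_norm_sq, Complex.normSq_apply]; ring
  rw [← hWn] at hfin
  have hWle : ‖W z‖ ≤ π / 2 := by
    rwa [sq_le_sq₀ (norm_nonneg _) (by positivity)] at hfin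
  have hWF : ‖W z‖ = π / 2 / m * ‖F z‖ := by
    simp only [hW]
    rw [norm_mul, Complex.norm_real, Real.norm_of_nonneg (by positivity)]
  rw [hWF] at hWle
  have h3 : π / 2 / m * ‖F z‖ ≤ π / 2 / m * m := by
    have e : π / 2 / m * m = π / 2 := by field_simp
    rw [e]; exact hWle
  exact le_of_mul_le_mul_left h3 (by positivity)

theorem lens {F : ℂ → ℂ} {a m : ℝ} (ha : 0 < a) (hm : 0 ≤ m)
    (hF : DifferentiableOn ℂ F (ball 0 a)) (hre : ∀ z ∈ ball (0 : ℂ) a, |(F z).re| ≤ m)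
    (h0 : (F 0).im = 0) {z : ℂ} (hz : ‖z‖ ≤ a / 2) : ‖F z‖ ≤ m := by
  refine le_of_forall_gt_imp_ge_of_dense fun m' hm' => ?_
  exact lens_strict ha (by linarith) hF (fun z hz => (hre z hz).trans_lt hm') h0 hz

end TBQ
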