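import Pool.Agent.Lib.MP_8b37c6_anQ.P2
import Pool.Agent.Lib.MP_8b37c6_anP.G

/-!
# MP_8b37c6_an, plane case: two sided bounds for the optimal exponent, all radii
-/

namespace TBP

open Real Set Metric InnerProductSpace TB

/-- the exponent of the family -/
theorem fam_bounds {a b c : ℝ} (hc0 : 0 ≤ c) (hca : c < a) (hab : a < b) (hb1 : b < 1) :
    0 < 2 / π * (Real.log ((b - c) / (1 - b * c)) / Real.log ((a - c) / (2 * (1 - a * c)))) ∧
    2 / π * (Real.log ((b - c) / (1 - b * c)) / Real.log ((a - c) / (2 * (1 - a * c)))) < 1 := by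
  have ha0 : 0 < a := by linarith
  have ha1 : a < 1 := by linarith
  have hc1 : c < 1 := by linarith
  have hac : 0 < 1 - a * c := by nlinarith
  have hbc : 0 < 1 - b * c := by nlinarith
  have hs0 : 0 < (a - c) / (1 - a * c) := div_pos (by linarith) hac
  have hs1 : (a - c) / (1 - a * c) < 1 := by rw [div_lt_one hac]; nlinarith
  have ht1 : (b - c) / (1 - b * c) < 1 := by rw [div_lt_one hbc]; nlinarith
  have hst : (a - c) / (1 - a * c) < (b - c) / (1 - b * c) := by
    rw [div_lt_div_iff₀ hac hbc]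
    have : 0 < (b - a) * (1 - c ^ 2) := mul_pos (by linarith) (by nlinarith)
    nlinarith
  have e1 : (a - c) / (2 * (1 - a * c)) = (a - c) / (1 - a * c) / 2 := by field_simp
  rw [e1]
  have hlt := Real.log_neg (hs0.trans hst) ht1
  have hls : Real.log ((a - c) / (1 - a * c) / 2) < 0 := Real.log_neg (by linarith) (by linarith)
  have hll : Real.log ((a - c) / (1 - a * c) / 2) < Real.log ((b - c) / (1 - b * c)) :=
    Real.log_lt_log (by linarith) (by linarith)
  have hp := Real.pi_gt_three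
  have h1 : 0 < Real.log ((b - c) / (1 - b * c)) / Real.log ((a - c) / (1 - a * c) / 2) :=
    div_pos_of_neg_of_neg hlt hls
  have h2 : Real.log ((b - c) / (1 - b * c)) / Real.log ((a - c) / (1 - a * c) / 2) < 1 := by
    rw [div_lt_one_of_neg hls]; exact hll
  have h3 : 0 < 2 / π := by positivity
  have h4 : 2 / π < 1 := by rw [div_lt_one (by linarith)]; linarith
  exact ⟨mul_pos h3 h1, by nlinarith⟩

/-- every positive exponent below a member of the family is admissible -/
theorem adm_fam {a b c γ R : ℝ} (hc0 : 0 ≤ c) (hca : c < a) (hab : a < b) (hb1 : b < 1) (hR : 0 < R) (hγ0 : 0 < γ)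
    (hγ : γ ≤ 2 / π * (Real.log ((b - c) / (1 - b * c)) / Real.log ((a - c) / (2 * (1 - a * c))))) :
    Admissible 2 (a * R) (b * R) R γ := by
  have ha0 : 0 < a := by linarith
  obtain ⟨f0, f1⟩ := fam_bounds hc0 hca hab hb1
  refine adm_of_unit' ha0 hab hb1 hR (by linarith) (unit_transfer ?_)
  intro v hv h1 m hm
  have hb0 : 0 < b := by linarith
  have hv0 : |v 0| ≤ m := hm 0 (by simpa using ha0.le)
  have hm0 : 0 ≤ m := (abs_nonneg _).trans hv0
  have hpos : ∀ m' : ℝ, 0 < m' → m' ≤ 1 → (∀ z : ℂ, ‖z‖ ≤ a → |v z| ≤ m') → v b ≤ m' ^ γ := by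
    intro m' hm'0 hm'1 hm'
    exact (shifted hv h1 hc0 hca hab hb1 hm'0 hm'1 hm').trans (Real.rpow_le_rpow_of_exponent_ge hm'0 hm'1 hγ)
  rcases le_or_gt 1 m with hm1 | hm1
  · have h2 : v b ≤ 1 := (le_abs_self _).trans (h1 _ (by
      rw [mem_closedBall_zero_iff, Complex.norm_real, Real.norm_of_nonneg hb0.le]; exact hb1.le))
    exact h2.trans (Real.one_le_rpow hm1 hγ0.le)
  rcases hm0.eq_or_lt with hm2 | hm2
  · rw [← hm2, Real.zero_rpow hγ0.ne']
    have ht : Filter.Tendsto (fun m' : ℝ => m' ^ γ) (nhdsWithin 0 (Ioi 0)) (nhds 0) := by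
      have h3 := (Real.continuousAt_rpow_const 0 γ (Or.inr hγ0.le)).tendsto
      rw [Real.zero_rpow hγ0.ne'] at h3
      exact h3.mono_left nhdsWithin_le_nhds
    refine ge_of_tendsto ht ?_
    filter_upwards [Ioo_mem_nhdsGT (show (0 : ℝ) < 1 by norm_num)] with m' hm'
    exact hpos m' hm'.1 hm'.2.le fun z hz => (hm z hz).trans (by rw [← hm2]; exact hm'.1.le)
  · exact hpos m hm2 hm1.le hm

theorem le_aStar {a b R γ : ℝ} (h0 : 0 < γ) (h1 : γ < 1) (h : Admissible 2 (a * R) (b * R) R γ) :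
    γ ≤ aStar 2 (a * R) (b * R) R := by
  unfold aStar
  refine le_csSup ⟨1, ?_⟩ ⟨h0, h1, h⟩
  rintro α ⟨_, h, _⟩
  exact h.le

/-- the explicit upper exponent is below Hadamard's exponent -/
theorem u_lt {a b : ℝ} (ha : 0 < a) (hab : a < b) (hb1 : b < 1) :
    Real.log (U b) / Real.log (U a) < Real.log b / Real.log a := by
  have hb0 : 0 < b := ha.trans hab
  have ha1 : a < 1 := hab.trans hb1
  have hla := Real.log_neg ha ha1
  have hlb := Real.log_neg hb0 hb1
  have hlab := Real.log_lt_log ha hab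
  have h1 := psi_ratio (s := -Real.log b) (t := -Real.log a) (by linarith) (by linarith)
  have hUa := Real.log_neg (U_pos ha) (U_lt_one ha1)
  have e1 : Real.log (U a) = -psi (-Real.log a) := by rw [U_eq ha, Real.log_exp]
  have e2 : Real.log (U b) = -psi (-Real.log b) := by rw [U_eq hb0, Real.log_exp]
  rw [← neg_div_neg_eq (Real.log (U b)), ← neg_div_neg_eq (Real.log b), div_lt_div_iff₀ (by linarith) (by linarith), e1, e2]
  linarith

/-- the ratio `-log x (1+x)/(1-x)` is antitone -/
theorem f_anti : AntitoneOn (fun x : ℝ => -Real.log x * (1 + x) / (1 - x)) (Ioo 0 1) := by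
  have hd : ∀ x ∈ Ioo (0 : ℝ) 1, HasDerivAt (fun x : ℝ => -Real.log x * (1 + x) / (1 - x))
      ((-(1 - x ^ 2) / x + -2 * Real.log x) / (1 - x) ^ 2) x := by
    intro x hx
    have h0 : x ≠ 0 := hx.1.ne'
    have h1 : (1 - x) ≠ 0 := by linarith [hx.2]
    have h2 : HasDerivAt (fun x : ℝ => -Real.log x * (1 + x)) (-x⁻¹ * (1 + x) + -Real.log x * 1) x :=
      (Real.hasDerivAt_log h0).neg.mul ((hasDerivAt_id x).const_add 1)
    have h3 : HasDerivAt (fun x : ℝ => 1 - x) (-1) x := by
      simpa using (hasDerivAt_id x).const_sub 1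
    refine (h2.div h3 h1).congr_deriv ?_
    field_simp
    ring
  refine antitoneOn_of_deriv_nonpos (convex_Ioo 0 1) (fun x hx => (hd x hx).continuousAt.continuousWithinAt)
    (fun x hx => by
      rw [interior_Ioo] at hx
      exact (hd x hx).differentiableAt.differentiableWithinAt) ?_
  intro x hx
  rw [interior_Ioo] at hx
  rw [(hd x hx).deriv]
  have h1 : 0 < (1 - x) ^ 2 := by
    have := hx.2
    positivity
  refine div_nonpos_of_nonpos_of_nonneg ?_ h1.le
  have hl := Real.log_neg hx.1 hx.2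
  have h2 : -Real.log x ≤ Real.sinh (-Real.log x) := Real.self_le_sinh_iff.2 (by linarith)
  rw [Real.sinh_eq, neg_neg, Real.exp_log hx.1, Real.exp_neg, Real.exp_log hx.1] at h2
  have h3 : -(1 - x ^ 2) / x = -(x⁻¹ - x) := by
    have := hx.1.ne'
    field_simp
  rw [h3]
  linarith

/-- a lower bound for the logarithm -/
theorem neg_log_ge {x : ℝ} (hx : 0 < x) (hx1 : x < 1) : 2 * ((1 - x) / (1 + x)) ≤ -Real.log x := by
  have h := Real.log_le_sub_one_of_pos hx
  have hanti : AntitoneOn (fun x : ℝ => -Real.log x - 2 * ((1 - x) / (1 + x))) (Ioc 0 1) := by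
    have hd : ∀ x ∈ Ioc (0 : ℝ) 1, HasDerivAt (fun x : ℝ => -Real.log x - 2 * ((1 - x) / (1 + x)))
        (-(1 - x) ^ 2 / (x * (1 + x) ^ 2)) x := by
      intro x hx
      have h0 : x ≠ 0 := hx.1.ne'
      have h1 : (1 + x) ≠ 0 := by linarith [hx.1]
      have h2 : HasDerivAt (fun x : ℝ => 1 - x) (-1) x := by simpa using (hasDerivAt_id x).const_sub 1
      have h3 : HasDerivAt (fun x : ℝ => 1 + x) 1 x := by simpa using (hasDerivAt_id x).const_add 1
      refine ((Real.hasDerivAt_log h0).neg.sub ((h2.div h3 h1).const_mul 2)).congr_deriv ?_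
      field_simp
      ring
    refine antitoneOn_of_deriv_nonpos (convex_Ioc 0 1) (fun x hx => (hd x hx).continuousAt.continuousWithinAt)
      (fun x hx => by
        rw [interior_Ioc] at hx
        exact (hd x ⟨hx.1, hx.2.le⟩).differentiableAt.differentiableWithinAt) ?_
    intro x hx
    rw [interior_Ioc] at hx
    rw [(hd x ⟨hx.1, hx.2.le⟩).deriv]
    have h1 := hx.1
    rw [neg_div]
    have : 0 ≤ (1 - x) ^ 2 / (x * (1 + x) ^ 2) := by positivity
    linarith
  have h2 := hanti ⟨hx, hx1.le⟩ ⟨one_pos, le_rfl⟩ hx1.le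
  simp only [Real.log_one] at h2
  norm_num at h2
  linarith

theorem log5 : Real.log 5 < 1.62 := by
  have h1 : Real.log (5 ^ 3) < Real.log (2 ^ 7) := Real.log_lt_log (by norm_num) (by norm_num)
  rw [Real.log_pow, Real.log_pow] at h1
  push_cast at h1
  have := Real.log_two_lt_d9
  linarith

theorem log52 : 0.8 < Real.log (5 / 2) := by
  have h1 : Real.log (2 ^ 6) < Real.log ((5 / 2) ^ 5) := Real.log_lt_log (by norm_num) (by norm_num)
  rw [Real.log_pow, Real.log_pow] at h1
  push_cast at h1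
  have := Real.log_two_gt_d9
  linarith

/-- the choice of the shift -/
theorem choice {a b : ℝ} (ha : 0 < a) (hab : a < b) (hb1 : b < 1) : ∃ c : ℝ, 0 ≤ c ∧ c < a ∧
    Real.log (U b) / Real.log (U a) / 3 ≤
      2 / π * (Real.log ((b - c) / (1 - b * c)) / Real.log ((a - c) / (2 * (1 - a * c)))) := by
  have hb0 : 0 < b := ha.trans hab
  have ha1 : a < 1 := hab.trans hb1
  have hp0 := Real.pi_pos
  have hp := Real.pi_lt_d4
  have hla := Real.log_neg ha ha1
  have hlb := Real.log_neg hb0 hb1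
  have hu := u_lt ha hab hb1
  rcases le_or_gt a (2 / 5) with h | h
  · refine ⟨0, le_rfl, ha, ?_⟩
    have e1 : (b - 0) / (1 - b * 0) = b := by simp
    have e2 : (a - 0) / (2 * (1 - a * 0)) = a / 2 := by simp
    rw [e1, e2]
    have h1 : Real.log (a / 2) = Real.log a - Real.log 2 := Real.log_div ha.ne' two_ne_zero
    have h2 : Real.log a ≤ -0.8 := by
      have h3 : Real.log a ≤ Real.log (2 / 5) := Real.log_le_log ha h
      have h4 : Real.log (2 / 5) = -Real.log (5 / 2) := by
        rw [← Real.log_inv]; norm_num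
      have := log52
      linarith
    have hl2 := Real.log_two_lt_d9
    have hl20 := Real.log_two_gt_d9
    have h3 : Real.log b / Real.log a / 3 ≤ 2 / π * (Real.log b / Real.log (a / 2)) := by
      rw [h1, ← neg_div_neg_eq (Real.log b), ← neg_div_neg_eq (Real.log b) (Real.log a - Real.log 2), div_div,
        div_mul_div_comm, div_le_div_iff₀ (by nlinarith) (by nlinarith)]
      have h5 : π * (Real.log 2 - Real.log a) ≤ 6 * -Real.log a := by nlinarith
      have h6 := mul_le_mul_of_nonneg_left h5 (by linarith : 0 ≤ -Real.log b)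
      linarith
    linarith
  · refine ⟨(5 * a - 2) / (5 - 2 * a), div_nonneg (by linarith) (by linarith), ?_, ?_⟩
    · rw [div_lt_iff₀ (by linarith)]
      nlinarith
    have hd : 0 < 5 - 2 * a := by linarith
    have hd' : (5 - 2 * a) ≠ 0 := hd.ne'
    have hr : (5 * a - 2) / (5 - 2 * a) * (5 - 2 * a) = 5 * a - 2 := div_mul_cancel₀ _ hd'
    have h1a : 0 < 1 - a ^ 2 := by nlinarith
    have e1 : (a - (5 * a - 2) / (5 - 2 * a)) / (2 * (1 - a * ((5 * a - 2) / (5 - 2 * a)))) = 1 / 5 := by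
      have h2 : a - (5 * a - 2) / (5 - 2 * a) = 2 * (1 - a ^ 2) / (5 - 2 * a) := by
        rw [eq_div_iff hd']; linear_combination -hr
      have h3 : 1 - a * ((5 * a - 2) / (5 - 2 * a)) = 5 * (1 - a ^ 2) / (5 - 2 * a) := by
        rw [eq_div_iff hd']; linear_combination -a * hr
      rw [h2, h3]
      field_simp
    rw [e1]
    set t := (b - (5 * a - 2) / (5 - 2 * a)) / (1 - b * ((5 * a - 2) / (5 - 2 * a))) with ht
    have hB : 0 < (1 + b) * (1 - a) := mul_pos (by linarith) (by linarith)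
    have hC : 0 < (1 - b) * (1 + a) := mul_pos (by linarith) (by linarith)
    have hlt : (1 - b) * (1 + a) < (1 + b) * (1 - a) := by nlinarith
    set κ := ((1 - b) * (1 + a)) / ((1 + b) * (1 - a)) with hκ
    have hκ0 : 0 < κ := div_pos hC hB
    have hκ1 : κ < 1 := by rw [hκ, div_lt_one hB]; exact hlt
    have hte : t = (7 - 3 * κ) / (7 + 3 * κ) := by
      have hd2 : 2 * (5 - 2 * a) ≠ 0 := mul_ne_zero two_ne_zero hd'
      have h2 : b - (5 * a - 2) / (5 - 2 * a) = (7 * ((1 + b) * (1 - a)) - 3 * ((1 - b) * (1 + a))) / (2 * (5 - 2 * a)) := by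
        rw [eq_div_iff hd2]; linear_combination -2 * hr
      have h3 : 1 - b * ((5 * a - 2) / (5 - 2 * a)) = (7 * ((1 + b) * (1 - a)) + 3 * ((1 - b) * (1 + a))) / (2 * (5 - 2 * a)) := by
        rw [eq_div_iff hd2]; linear_combination -2 * b * hr
      have h4 : (7 + 3 * κ) ≠ 0 := by linarith
      have h5 : (7 * ((1 + b) * (1 - a)) + 3 * ((1 - b) * (1 + a))) ≠ 0 := by linarith
      have h6 : κ * ((1 + b) * (1 - a)) = (1 - b) * (1 + a) := by rw [hκ, div_mul_cancel₀ _ hB.ne']
      rw [ht, h2, h3, div_div_div_cancel_right₀ (by linarith), div_eq_div_iff h5 h4, ← h6]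
      ring
    have ht0 : 0 < t := by rw [hte]; exact div_pos (by linarith) (by linarith)
    have ht1 : t < 1 := by rw [hte, div_lt_one (by linarith)]; linarith
    have h2 := neg_log_ge ht0 ht1
    have h3 : (1 - t) / (1 + t) = 3 / 7 * κ := by
      rw [hte]
      have : (7 + 3 * κ) ≠ 0 := by linarith
      rw [one_sub_div this, one_add_div this, div_div_div_cancel_right₀ this]
      have h4 : (7 + 3 * κ + (7 - 3 * κ)) = 14 := by ring
      rw [h4]
      ring
    rw [h3] at h2
    have h4 : Real.log b / Real.log a ≤ κ := by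
      have h5 := f_anti ⟨ha, ha1⟩ ⟨hb0, hb1⟩ hab.le
      simp only at h5
      rw [← neg_div_neg_eq, hκ, div_le_div_iff₀ (by linarith) hB]
      rw [div_le_div_iff₀ (by linarith) (by linarith)] at h5
      linarith
    have h5 : Real.log (1 / 5) = -Real.log 5 := by rw [one_div, Real.log_inv]
    have hl5 := log5
    have hl50 : 0 < Real.log 5 := Real.log_pos (by norm_num)
    rw [h5]
    have h6 : κ / 3 ≤ 2 / π * (Real.log t / -Real.log 5) := by
      rw [← neg_div_neg_eq (Real.log t), neg_neg, div_mul_div_comm, div_le_div_iff₀ (by norm_num) (by positivity)]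
      have h7 : π * Real.log 5 ≤ 36 / 7 := by nlinarith
      have h8 := mul_le_mul_of_nonneg_left h7 hκ0.le
      linarith
    linarith

theorem all_radii :
    ∀ a b R : ℝ, 0 < a → a < b → b < 1 → 0 < R →
      TB.aStar 2 (a * R) (b * R) R ≤ log (4 / π * arctan b) / log (4 / π * arctan a) ∧
      log (4 / π * arctan b) / log (4 / π * arctan a) / 3 ≤ TB.aStar 2 (a * R) (b * R) R ∧
      TB.Admissible 2 (a * R) (b * R) R (log (4 / π * arctan b) / log (4 / π * arctan a) / 3) ∧
      ∀ c : ℝ, 0 ≤ c → c < a →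
        2 / π * (log ((b - c) / (1 - b * c)) / log ((a - c) / (2 * (1 - a * c)))) ≤ TB.aStar 2 (a * R) (b * R) R ∧
        TB.Admissible 2 (a * R) (b * R) R
          (2 / π * (log ((b - c) / (1 - b * c)) / log ((a - c) / (2 * (1 - a * c))))) := by
  intro a b R ha hab hb hR
  have hb0 : 0 < b := ha.trans hab
  have hUa := Real.log_neg (U_pos ha) (U_lt_one (hab.trans hb))
  have hUb := Real.log_neg (U_pos hb0) (U_lt_one hb)
  have hα0 : 0 < Real.log (U b) / Real.log (U a) := div_pos_of_neg_of_neg hUb hUa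
  have hfam : ∀ c : ℝ, 0 ≤ c → c < a →
        2 / π * (log ((b - c) / (1 - b * c)) / log ((a - c) / (2 * (1 - a * c)))) ≤ TB.aStar 2 (a * R) (b * R) R ∧
        TB.Admissible 2 (a * R) (b * R) R
          (2 / π * (log ((b - c) / (1 - b * c)) / log ((a - c) / (2 * (1 - a * c))))) := by
    intro c hc0 hca
    obtain ⟨f0, f1⟩ := fam_bounds hc0 hca hab hb
    have h1 := adm_fam hc0 hca hab hb hR f0 le_rfl
    exact ⟨le_aStar f0 f1 h1, h1⟩
  obtain ⟨c, hc0, hca, hc⟩ := choice ha hab hb
  obtain ⟨f0, f1⟩ := fam_bounds hc0 hca hab hb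
  refine ⟨?_, ?_, ?_, hfam⟩
  · show aStar 2 (a * R) (b * R) R ≤ Real.log (U b) / Real.log (U a)
    unfold aStar
    refine Real.sSup_le ?_ hα0.le
    rintro α ⟨_, _, h⟩
    exact adm_le ha hab hb hR h
  · exact hc.trans (hfam c hc0 hca).1
  · exact adm_fam hc0 hca hab hb hR (by show 0 < Real.log (U b) / Real.log (U a) / 3; linarith) hc

end TBP
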