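import Pool.Agent.Lib.MP_8b37c6_anP.C

/-!
# MP_8b37c6_an, plane case: the conjugate function on half of the disc
-/

namespace TBP

open Complex Metric InnerProductSpace Real Set

theorem T_lt_one {w : ℂ} (hw : |w.re| < 1) : ‖T w‖ < 1 := by
  have hp := Real.pi_pos
  obtain ⟨h1, h2⟩ := abs_lt.1 hw
  have h : 0 < (exp (I * (π / 2) * w)).re := by
    rw [Complex.exp_re]
    have h3 : (I * (π / 2) * w).im = π / 2 * w.re := by
      simp [Complex.mul_im]
    rw [h3]
    refine mul_pos (Real.exp_pos _) (Real.cos_pos_of_mem_Ioo ⟨?_, ?_⟩) <;> nlinarith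
  have h1' := one_le_den hw.le
  unfold T
  rw [norm_div, div_lt_one (by linarith)]
  rw [← sq_lt_sq₀ (norm_nonneg _) (norm_nonneg _), ← Complex.normSq_eq_norm_sq, ← Complex.normSq_eq_norm_sq,
    Complex.normSq_apply, Complex.normSq_apply]
  simp only [sub_re, sub_im, add_re, add_im, one_re, one_im]
  nlinarith

theorem T_zero : T 0 = 0 := by
  unfold T; simp

/-- by the Schwarz lemma -/
theorem T_le_norm {w : ℂ} (hw : ‖w‖ < 1) : ‖T w‖ ≤ ‖w‖ := by
  refine Complex.norm_le_norm_of_mapsTo_ball (R := 1) (f := T) ?_ ?_ T_zero hw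
  · intro z hz
    have h1 : ‖z‖ < 1 := by simpa using hz
    exact (T_diff ((Complex.abs_re_le_norm z).trans h1.le)).differentiableWithinAt
  · intro z hz
    have h1 : ‖z‖ < 1 := by simpa using hz
    rw [mem_closedBall_zero_iff]
    exact T_le_one ((Complex.abs_re_le_norm z).trans h1.le)

/-- the modulus and the real part of the Cayley transform -/
theorem T_re_norm {w : ℂ} (hw : |w.re| ≤ 1) :
    (T w).re * ‖exp (I * (π / 2) * w) + 1‖ ^ 2 = Real.exp (I * (π / 2) * w).re ^ 2 - 1 ∧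
    (1 - ‖T w‖ ^ 2) * ‖exp (I * (π / 2) * w) + 1‖ ^ 2 = 4 * Real.exp (I * (π / 2) * w).re * Real.cos (π / 2 * w.re) := by
  have him : (I * (π / 2) * w).im = π / 2 * w.re := by simp [Complex.mul_im]
  set q := Real.exp (I * (π / 2) * w).re with hq
  have hq0 : 0 < q := Real.exp_pos _
  have hden := one_le_den hw
  have hsc := Real.sin_sq_add_cos_sq (π / 2 * w.re)
  have hne : exp (I * (π / 2) * w) + 1 ≠ 0 := by
    intro h
    rw [h, norm_zero] at hden
    linarith
  have e1 : ‖exp (I * (π / 2) * w) - 1‖ ^ 2 = q ^ 2 - 2 * q * Real.cos (π / 2 * w.re) + 1 := by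
    rw [← Complex.normSq_eq_norm_sq, Complex.normSq_apply]
    simp only [sub_re, sub_im, one_re, one_im, Complex.exp_re, Complex.exp_im, him, ← hq]
    linear_combination q ^ 2 * hsc
  have e2 : ‖exp (I * (π / 2) * w) + 1‖ ^ 2 = q ^ 2 + 2 * q * Real.cos (π / 2 * w.re) + 1 := by
    rw [← Complex.normSq_eq_norm_sq, Complex.normSq_apply]
    simp only [add_re, add_im, one_re, one_im, Complex.exp_re, Complex.exp_im, him, ← hq]
    linear_combination q ^ 2 * hsc
  constructor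
  · unfold T
    rw [Complex.div_re]
    have hns : Complex.normSq (exp (I * (π / 2) * w) + 1) ≠ 0 := by
      rwa [Ne, Complex.normSq_eq_zero]
    rw [← Complex.normSq_eq_norm_sq, add_mul, div_mul_cancel₀ _ hns, div_mul_cancel₀ _ hns]
    simp only [sub_re, sub_im, add_re, add_im, one_re, one_im, Complex.exp_re, Complex.exp_im, him, ← hq]
    linear_combination q ^ 2 * hsc
  · unfold T
    rw [norm_div, div_pow, one_sub_mul, div_mul_cancel₀ _ (by positivity), e1, e2]
    ring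

/-- the region bounded by the lens is contained in the unit disc -/
theorem lens_norm {w : ℂ} (hw : |w.re| < 1) (h : 3 * |(T w).re| ≤ 2 * (1 - ‖T w‖ ^ 2)) : ‖w‖ ≤ 1 := by
  obtain ⟨h1, h2⟩ := T_re_norm hw.le
  have hp := Real.pi_pos
  have hp3 := Real.pi_gt_d2
  have hden := one_le_den hw.le
  have hre : (I * (π / 2) * w).re = -(π / 2 * w.im) := by simp [Complex.mul_re]
  rw [hre] at h1 h2
  set D := ‖exp (I * (π / 2) * w) + 1‖ ^ 2 with hD
  have hD0 : 0 < D := by positivity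
  set u := π / 2 * w.im with hu
  set φ := π / 2 * w.re with hφ
  have hq0 := Real.exp_pos (-u)
  have h3 : 3 * |Real.exp (-u) ^ 2 - 1| ≤ 2 * (4 * Real.exp (-u) * Real.cos φ) := by
    rw [← h1, ← h2, abs_mul, abs_of_pos hD0]
    have := mul_le_mul_of_nonneg_right h hD0.le
    linarith
  have h4 : |Real.sinh u| ≤ 4 / 3 * Real.cos φ := by
    have h5 : Real.exp (-u) ^ 2 - 1 = -(2 * Real.exp (-u) * Real.sinh u) := by
      rw [Real.sinh_eq]
      have : Real.exp (-u) * Real.exp u = 1 := by rw [← Real.exp_add]; simp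
      linear_combination this
    rw [h5, abs_neg, abs_mul, abs_of_pos (by positivity)] at h3
    have h6 : Real.exp (-u) * (6 * |Real.sinh u|) ≤ Real.exp (-u) * (8 * Real.cos φ) := by linarith
    have := le_of_mul_le_mul_left h6 hq0
    linarith
  have h5 : |u| ≤ |Real.sinh u| := by
    rw [Real.abs_sinh]
    exact Real.self_le_sinh_iff.2 (abs_nonneg u)
  have h6 : |u| ≤ 4 / 3 * Real.cos φ := h5.trans h4
  have hφ1 : |φ| < π / 2 := by
    rw [hφ, abs_mul, abs_of_pos (by positivity : (0 : ℝ) < π / 2)]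
    nlinarith
  set ψ := π / 2 - |φ| with hψ
  have hψ0 : 0 < ψ := by linarith
  have hψ1 : ψ ≤ π / 2 := by linarith [abs_nonneg φ]
  have hc : Real.cos φ = Real.sin ψ := by
    rw [hψ, Real.sin_pi_div_two_sub, Real.cos_abs]
  have hs1 : Real.sin ψ ≤ ψ := Real.sin_le hψ0.le
  have hs2 : Real.sin ψ ≤ 1 := Real.sin_le_one ψ
  have h7 : u ^ 2 ≤ ψ * (π - ψ) := by
    rw [hc] at h6
    rw [← sq_abs u]
    have h0 : 0 ≤ |u| := abs_nonneg u
    rcases le_or_gt ψ (11 / 10) with h8 | h8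
    · have h9 : |u| ≤ 4 / 3 * ψ := by linarith
      have h10 : |u| ^ 2 ≤ (4 / 3 * ψ) ^ 2 := pow_le_pow_left₀ h0 h9 2
      nlinarith
    · have h9 : |u| ≤ 4 / 3 := by linarith
      have h10 : |u| ^ 2 ≤ (4 / 3) ^ 2 := pow_le_pow_left₀ h0 h9 2
      nlinarith
  have h8 : u ^ 2 + φ ^ 2 ≤ (π / 2) ^ 2 := by
    have : φ ^ 2 = (π / 2 - ψ) ^ 2 := by
      rw [hψ, sub_sub_cancel, sq_abs]
    rw [this]
    nlinarith
  have h9 : (π / 2) ^ 2 * ‖w‖ ^ 2 ≤ (π / 2) ^ 2 * 1 := by
    have : ‖w‖ ^ 2 = w.re * w.re + w.im * w.im := by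
      rw [← Complex.normSq_eq_norm_sq, Complex.normSq_apply]
    rw [this]
    rw [hu, hφ] at h8
    nlinarith
  have h10 := le_of_mul_le_mul_left h9 (by positivity)
  nlinarith [norm_nonneg w]

/-- the algebra of the lens -/
theorem lens_alg {ξ η t P : ℝ} (hP : P = 1 - ξ ^ 2 - η ^ 2) (hP0 : 0 < P)
    (h : 4 * (ξ ^ 2 + (η - t) ^ 2) ≤ (1 - t * η) ^ 2 + (t * ξ) ^ 2) : 3 * |ξ| ≤ 2 * P := by
  have h1 : (3 + P) * t ^ 2 - 6 * η * t + 3 - 4 * P ≤ 0 := by
    have : (1 - t * η) ^ 2 + (t * ξ) ^ 2 - (ξ ^ 2 + (η - t) ^ 2) = (1 - t ^ 2) * P := by rw [hP]; ring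
    nlinarith
  have h2 : 9 * ξ ^ 2 ≤ 4 * P ^ 2 := by
    nlinarith [sq_nonneg ((3 + P) * t - 3 * η), mul_nonneg (by linarith : 0 ≤ 3 + P) (neg_nonneg.2 h1)]
  have h3 : (3 * |ξ|) ^ 2 ≤ (2 * P) ^ 2 := by
    rw [mul_pow, sq_abs, mul_pow]
    linarith
  exact (abs_le_of_sq_le_sq' h3 (by positivity)).2

/-- the Schwarz-Pick lemma at the centre -/
theorem pick {g : ℂ → ℂ} {s t : ℝ} (hg : DifferentiableOn ℂ g (ball 0 s))
    (h1 : ∀ z ∈ ball (0 : ℂ) s, ‖g z‖ < 1) (h0 : g 0 = t * I) {z : ℂ} (hs : 0 < s) (hz : ‖z‖ ≤ s / 2) :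
    3 * |(g z).re| ≤ 2 * (1 - ‖g z‖ ^ 2) := by
  have hz' : z ∈ ball (0 : ℂ) s := by rw [mem_ball_zero_iff]; linarith
  have h0s : (0 : ℂ) ∈ ball (0 : ℂ) s := by simpa using hs
  have ht : |t| < 1 := by
    have := h1 0 h0s
    rw [h0, norm_mul, Complex.norm_I, mul_one, Complex.norm_real] at this
    exact this
  have ht2 : t ^ 2 < 1 := by rw [← sq_abs]; nlinarith [abs_nonneg t]
  have hnorm : ∀ w : ℂ, ‖w‖ ^ 2 = w.re ^ 2 + w.im ^ 2 := fun w => by
    rw [← Complex.normSq_eq_norm_sq, Complex.normSq_apply]; ring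
  have key : ∀ w : ℂ, ‖1 + t * I * w‖ ^ 2 - ‖w - t * I‖ ^ 2 = (1 - t ^ 2) * (1 - ‖w‖ ^ 2) := by
    intro w
    rw [hnorm, hnorm, hnorm]
    simp
    ring
  have hden : ∀ w : ℂ, ‖w‖ < 1 → 1 + t * I * w ≠ 0 := by
    intro w hw h
    have h2 : ‖(t : ℂ) * I * w‖ < 1 := by
      rw [norm_mul, norm_mul, Complex.norm_I, mul_one, Complex.norm_real, Real.norm_eq_abs]
      nlinarith [abs_nonneg t, norm_nonneg w]
    have h3 : (t : ℂ) * I * w = -1 := by linear_combination h
    rw [h3, norm_neg, norm_one] at h2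
    exact lt_irrefl _ h2
  set H : ℂ → ℂ := fun z => (g z - t * I) / (1 + t * I * g z) with hH
  have hHd : DifferentiableOn ℂ H (ball 0 s) := by
    intro x hx
    have h2 := hg x hx
    exact (h2.sub_const _).div ((h2.const_mul _).const_add 1) (hden _ (h1 x hx))
  have hH1 : MapsTo H (ball 0 s) (closedBall 0 1) := by
    intro x hx
    rw [mem_closedBall_zero_iff, hH]
    simp only
    have h2 := norm_pos_iff.2 (hden _ (h1 x hx))
    rw [norm_div, div_le_one h2, ← sq_le_sq₀ (norm_nonneg _) (norm_nonneg _)]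
    have h3 := key (g x)
    have h4 : 0 ≤ (1 - t ^ 2) * (1 - ‖g x‖ ^ 2) := by
      have := h1 x hx
      have h5 : ‖g x‖ ^ 2 ≤ 1 := by nlinarith [norm_nonneg (g x)]
      exact mul_nonneg (by linarith) (by linarith)
    linarith
  have hH0 : H 0 = 0 := by
    simp only [hH, h0, sub_self, zero_div]
  have h2 := Complex.dist_le_div_mul_dist_of_mapsTo_ball (R₂ := 1) hHd (by rwa [hH0]) hz'
  rw [hH0, dist_zero_right, dist_zero_right] at h2
  have h3 : ‖H z‖ ≤ 1 / 2 := by
    refine h2.trans ?_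
    rw [div_mul_eq_mul_div, one_mul, div_le_iff₀ hs]
    linarith
  have h4 := norm_pos_iff.2 (hden _ (h1 z hz'))
  have h5 : 2 * ‖g z - t * I‖ ≤ ‖1 + t * I * g z‖ := by
    simp only [hH] at h3
    rw [norm_div, div_le_iff₀ h4] at h3
    linarith
  have h6 : 4 * ‖g z - t * I‖ ^ 2 ≤ ‖1 + t * I * g z‖ ^ 2 := by
    have := pow_le_pow_left₀ (by positivity) h5 2
    linarith
  have hgz := h1 z hz'
  have h7 : (g z - t * I).re = (g z).re := by simp
  have h8 : (g z - t * I).im = (g z).im - t := by simp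
  have h9 : (1 + t * I * g z).re = 1 - t * (g z).im := by simp; ring
  have h10 : (1 + t * I * g z).im = t * (g z).re := by simp
  rw [hnorm, hnorm, h7, h8, h9, h10] at h6
  rw [hnorm]
  have h11 : ‖g z‖ ^ 2 < 1 := by nlinarith [norm_nonneg (g z)]
  rw [hnorm] at h11
  exact lens_alg (P := 1 - ((g z).re ^ 2 + (g z).im ^ 2)) (by ring) (by linarith) h6

/-- a holomorphic function with small real part, real at the centre, is small on the disc of half the radius -/
theorem half {F : ℂ → ℂ} {s m : ℝ} (hs : 0 < s) (hm : 0 < m) (hF : DifferentiableOn ℂ F (ball 0 s))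
    (hre : ∀ z ∈ ball (0 : ℂ) s, |(F z).re| < m) (h0 : (F 0).im = 0) {z : ℂ} (hz : ‖z‖ ≤ s / 2) : ‖F z‖ ≤ m := by
  have hz' : z ∈ ball (0 : ℂ) s := by rw [mem_ball_zero_iff]; linarith
  have hG : ∀ x ∈ ball (0 : ℂ) s, |(F x / m).re| < 1 := by
    intro x hx
    rw [Complex.div_ofReal_re, abs_div, abs_of_pos hm, div_lt_one hm]
    exact hre x hx
  have h1 : ‖F z / m‖ ≤ 1 := by
    refine lens_norm (hG z hz') ?_
    refine pick (g := fun x => T (F x / m)) (s := s) (t := (T (F 0 / m)).im) ?_ ?_ ?_ hs hz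
    · intro x hx
      exact (T_diff (hG x hx).le).comp_differentiableWithinAt x ((hF x hx).div_const _)
    · intro x hx
      exact T_lt_one (hG x hx)
    · have h0s : (0 : ℂ) ∈ ball (0 : ℂ) s := by simpa using hs
      have h2 := (T_re_norm (hG 0 h0s).le).1
      have h3 : (I * (π / 2) * (F 0 / m)).re = 0 := by
        have : (F 0 / m).im = 0 := by rw [Complex.div_ofReal_im, h0, zero_div]
        simp [Complex.mul_re, this]
      rw [h3, Real.exp_zero, one_pow, sub_self] at h2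
      have h4 := one_le_den (hG 0 h0s).le
      have h5 : (T (F 0 / m)).re = 0 := by
        rcases mul_eq_zero.1 h2 with h | h
        · exact h
        · exfalso
          have : ‖exp (I * (π / 2) * (F 0 / m)) + 1‖ = 0 := by simpa using h
          linarith
      apply Complex.ext <;> simp [h5]
  rwa [norm_div, Complex.norm_real, Real.norm_of_nonneg hm.le, div_le_one hm] at h1

end TBP
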