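import Pool.Agent.Lib.MP_8b37c6_anQ.P1
import Pool.Agent.Lib.MP_8b37c6_anP.D

/-!
# MP_8b37c6_an, plane case: three circles with the constant one, and the Moebius shift
-/

namespace TBP

open Complex Metric InnerProductSpace Real Set

theorem three1 {F₀ : ℂ → ℂ} (hF₀ : ∀ z ∈ closedBall (0 : ℂ) 1, DifferentiableAt ℂ F₀ z)
    (hb : ∀ z ∈ closedBall (0 : ℂ) 1, |(F₀ z).re| ≤ 1)
    {a b m : ℝ} (ha : 0 < a) (ha1 : a < 1) (hab : a / 2 ≤ b) (hb1 : b < 1) (hm0 : 0 < m)
    (hm : ∀ z : ℂ, ‖z‖ ≤ a → |(F₀ z).re| ≤ m) :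
    (F₀ b).re ≤ 4 / π * Real.arctan (m ^ (Real.log b / Real.log (a / 2))) := by
  set F : ℂ → ℂ := fun z => F₀ z - ((F₀ 0).im : ℂ) * I with hFdef
  have hFv : ∀ z, (F z).re = (F₀ z).re := fun z => by simp [hFdef]
  have hF0 : (F 0).im = 0 := by simp [hFdef]
  have hF : ∀ z ∈ closedBall (0 : ℂ) 1, DifferentiableAt ℂ F z := fun z hz => (hF₀ z hz).sub_const _
  have hb0 : 0 < b := by linarith
  have hre : ∀ z ∈ closedBall (0 : ℂ) 1, |(F z).re| ≤ 1 := fun z hz => by rw [hFv]; exact hb z hz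
  have hcb : ∀ z : ℂ, ‖z‖ ≤ 1 → z ∈ closedBall (0 : ℂ) 1 := fun z hz => by rwa [mem_closedBall_zero_iff]
  have h1 : ∀ z : ℂ, ‖z‖ ≤ a / 2 → ‖F z‖ ≤ m := by
    intro z hz
    refine le_of_forall_gt_imp_ge_of_dense fun m' hm' => ?_
    refine half ha (hm0.trans hm') ?_ ?_ hF0 hz
    · intro x hx
      have hx1 : ‖x‖ < a := by simpa using hx
      exact (hF x (hcb x (by linarith))).differentiableWithinAt
    · intro x hx
      have hx1 : ‖x‖ < a := by simpa using hx
      rw [hFv]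
      exact (hm x hx1.le).trans_lt hm'
  have h2 : ∀ z : ℂ, ‖z‖ ≤ a / 2 → ‖T (F z)‖ ≤ m := by
    intro z hz
    have h3 := h1 z hz
    rcases lt_or_ge ‖F z‖ 1 with h4 | h4
    · exact (T_le_norm h4).trans h3
    · exact (T_le_one (hre z (hcb z (by linarith)))).trans (h4.trans h3)
  -- three lines
  set l := Real.log (a / 2) with hl
  have hl0 : l < 0 := Real.log_neg (by linarith) (by linarith)
  have hexp : ∀ w : ℂ, w.re ≤ 0 → exp w ∈ closedBall (0 : ℂ) 1 := by
    intro w hw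
    rw [mem_closedBall_zero_iff, Complex.norm_exp]
    exact Real.exp_le_one_iff.2 hw
  set f : ℂ → ℂ := fun w => T (F (exp w)) with hf
  have hfd : ∀ w : ℂ, w.re ≤ 0 → DifferentiableAt ℂ f w := by
    intro w hw
    have h2 := hexp w hw
    have h3 : DifferentiableAt ℂ F (exp w) := hF _ h2
    exact (T_diff (hre _ h2)).comp w (h3.comp w (by fun_prop))
  have hfb : ∀ w : ℂ, w.re ≤ 0 → ‖f w‖ ≤ 1 := fun w hw => T_le_one (hre _ (hexp w hw))
  have hlogb : Real.log b ∈ Set.Icc l 0 := by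
    refine ⟨Real.log_le_log (by linarith) hab, Real.log_nonpos hb0.le hb1.le⟩
  have h3l := Complex.HadamardThreeLines.norm_le_interp_of_mem_verticalClosedStrip' (f := f) (z := (Real.log b : ℂ))
    (a := m) (b := 1) hl0 (by
      simp only [Complex.HadamardThreeLines.verticalClosedStrip, mem_preimage, Complex.ofReal_re]
      exact hlogb)
    (by
      refine DifferentiableOn.diffContOnCl fun w hw => (hfd w ?_).differentiableWithinAt
      have : closure (Complex.HadamardThreeLines.verticalStrip l 0) ⊆ {w : ℂ | w.re ≤ 0} := by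
        refine closure_minimal ?_ (isClosed_le Complex.continuous_re continuous_const)
        intro w hw
        simp only [Complex.HadamardThreeLines.verticalStrip, mem_preimage] at hw
        exact hw.2.le
      exact this hw)
    (by
      refine ⟨1, ?_⟩
      rintro _ ⟨w, hw, rfl⟩
      simp only [Complex.HadamardThreeLines.verticalClosedStrip, mem_preimage] at hw
      exact hfb w hw.2)
    (by
      intro w hw
      simp only [mem_preimage, mem_singleton_iff] at hw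
      have h4 : ‖exp w‖ = a / 2 := by
        rw [Complex.norm_exp, hw, hl, Real.exp_log (by linarith)]
      exact h2 (exp w) h4.le)
    (by
      intro w hw
      simp only [mem_preimage, mem_singleton_iff] at hw
      exact hfb w hw.le)
  rw [Real.one_rpow, mul_one, Complex.ofReal_re] at h3l
  have h7 : 1 - (Real.log b - l) / (0 - l) = Real.log b / l := by
    have : l ≠ 0 := hl0.ne
    field_simp
    ring
  rw [h7] at h3l
  have h8 : exp (Real.log b : ℂ) = b := by
    rw [← Complex.ofReal_exp, Real.exp_log hb0]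
  have hbm : (b : ℂ) ∈ closedBall (0 : ℂ) 1 := by
    rw [mem_closedBall_zero_iff, Complex.norm_real, Real.norm_of_nonneg hb0.le]
    exact hb1.le
  have h9 := re_le (hre _ hbm) (τ := m ^ (Real.log b / l)) (by
    have : f (Real.log b : ℂ) = T (F b) := by simp only [hf, h8]
    rw [← this]
    exact h3l)
  rwa [hFv] at h9

/-- the norm under a real Moebius map -/
theorem moeb_norm {c s a : ℝ} {z : ℂ} (hc0 : 0 ≤ c) (hc1 : c < 1) (hs0 : 0 ≤ s) (hs1 : s ≤ 1) (ha : a * (1 + c * s) = s + c)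
    (ha1 : a ≤ 1) (hz : ‖z‖ ≤ s) : ‖(z + c) / (1 + c * z)‖ ≤ a := by
  have hnorm : ∀ w : ℂ, ‖w‖ ^ 2 = w.re ^ 2 + w.im ^ 2 := fun w => by
    rw [← Complex.normSq_eq_norm_sq, Complex.normSq_apply]; ring
  have hcs : 0 ≤ c * s := mul_nonneg hc0 hs0
  have ha0 : 0 ≤ a := by
    by_contra h
    push Not at h
    nlinarith
  have h1 : ‖(1 : ℂ) + c * z‖ ^ 2 - ‖z + c‖ ^ 2 = (1 - c ^ 2) * (1 - ‖z‖ ^ 2) := by
    rw [hnorm, hnorm, hnorm]
    simp
    ring
  have hz2 : ‖z‖ ^ 2 ≤ s ^ 2 := pow_le_pow_left₀ (norm_nonneg _) hz 2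
  have h2 : ‖(1 : ℂ) + c * z‖ ≤ 1 + c * s := by
    refine (norm_add_le _ _).trans ?_
    rw [norm_one, norm_mul, Complex.norm_real, Real.norm_of_nonneg hc0]
    have := mul_le_mul_of_nonneg_left hz hc0
    linarith
  have h3 : ‖(1 : ℂ) + c * z‖ ^ 2 ≤ (1 + c * s) ^ 2 := pow_le_pow_left₀ (norm_nonneg _) h2 2
  have h4 : (1 - a ^ 2) * (1 + c * s) ^ 2 = (1 - c ^ 2) * (1 - s ^ 2) := by
    linear_combination -(a * (1 + c * s) + s + c) * ha
  have h5 : (1 - a ^ 2) * ‖(1 : ℂ) + c * z‖ ^ 2 ≤ (1 - a ^ 2) * (1 + c * s) ^ 2 :=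
    mul_le_mul_of_nonneg_left h3 (by nlinarith)
  have h6 : (1 - c ^ 2) * (1 - s ^ 2) ≤ (1 - c ^ 2) * (1 - ‖z‖ ^ 2) :=
    mul_le_mul_of_nonneg_left (by linarith) (by nlinarith)
  have h7 : ‖z + c‖ ^ 2 ≤ (a * ‖(1 : ℂ) + c * z‖) ^ 2 := by
    rw [mul_pow]
    linarith
  have h8 : ‖z + c‖ ≤ a * ‖(1 : ℂ) + c * z‖ := by
    rwa [sq_le_sq₀ (norm_nonneg _) (by positivity)] at h7
  rw [norm_div]
  exact div_le_of_le_mul₀ (norm_nonneg _) ha0 h8

theorem moeb_den {c : ℝ} {z : ℂ} (hc0 : 0 ≤ c) (hc1 : c < 1) (hz : ‖z‖ ≤ 1) : (1 : ℂ) + c * z ≠ 0 := by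
  intro h
  have h2 : ‖(c : ℂ) * z‖ < 1 := by
    rw [norm_mul, Complex.norm_real, Real.norm_of_nonneg hc0]
    nlinarith [norm_nonneg z]
  have h3 : (c : ℂ) * z = -1 := by linear_combination h
  rw [h3, norm_neg, norm_one] at h2
  exact lt_irrefl _ h2

theorem arctan_le_rpow {x : ℝ} (hx : 0 < x) (hx1 : x ≤ 1) : 4 / π * Real.arctan x ≤ x ^ (2 / π) := by
  rcases hx1.eq_or_lt with h | h
  · rw [h, Real.arctan_one, Real.one_rpow]
    have : 4 / π * (π / 4) = 1 := by field_simp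
    rw [this]
  · have h1 : 0 < -Real.log x := by
      have := Real.log_neg hx h
      linarith
    have h2 := psi_conv.convexOn.le_slope_of_hasDerivAt (mem_Ici.2 le_rfl) (mem_Ici.2 h1.le) h1 (psi_deriv 0)
    rw [slope_def_field, psi_zero, sub_zero, sub_zero, neg_zero, Real.exp_zero, Real.arctan_one] at h2
    have h3 : (1 : ℝ) / ((1 + 1 ^ 2) * (π / 4)) = 2 / π := by
      field_simp
      norm_num
    rw [h3, le_div_iff₀ h1] at h2
    have h4 := U_eq hx
    unfold U at h4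
    rw [h4, Real.rpow_def_of_pos hx]
    refine Real.exp_le_exp.2 ?_
    linarith

/-- the two constants inequality at the point `b` with the centre shifted to `c` -/
theorem shifted {v : ℂ → ℝ} (hv : HarmonicOnNhd v (closedBall 0 1)) (hb : ∀ z ∈ closedBall (0 : ℂ) 1, |v z| ≤ 1)
    {a b c m : ℝ} (hc0 : 0 ≤ c) (hca : c < a) (hab : a < b) (hb1 : b < 1) (hm0 : 0 < m) (hm1 : m ≤ 1)
    (hm : ∀ z : ℂ, ‖z‖ ≤ a → |v z| ≤ m) :
    v b ≤ m ^ (2 / π * (Real.log ((b - c) / (1 - b * c)) / Real.log ((a - c) / (2 * (1 - a * c))))) := by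
  obtain ⟨R, hR, F, hF, hFv, hF0⟩ := exists_hol hv
  have hsub : closedBall (0 : ℂ) 1 ⊆ ball 0 R := closedBall_subset_ball hR
  have ha0 : 0 < a := by linarith
  have ha1 : a < 1 := by linarith
  have hc1 : c < 1 := by linarith
  have hac : 0 < 1 - a * c := by nlinarith
  have hbc : 0 < 1 - b * c := by nlinarith
  set s := (a - c) / (1 - a * c) with hs
  set t := (b - c) / (1 - b * c) with ht
  have hs0 : 0 < s := div_pos (by linarith) hac
  have hs1 : s < 1 := by rw [hs, div_lt_one hac]; nlinarith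
  have ht1 : t < 1 := by rw [ht, div_lt_one hbc]; nlinarith
  have hst : s < t := by
    rw [hs, ht, div_lt_div_iff₀ hac hbc]
    have : 0 < (b - a) * (1 - c ^ 2) := mul_pos (by linarith) (by nlinarith)
    nlinarith
  have ht0 : 0 < t := hs0.trans hst
  set φ : ℂ → ℂ := fun z => (z + c) / (1 + c * z) with hφ
  have hφ1 : ∀ z ∈ closedBall (0 : ℂ) 1, φ z ∈ closedBall (0 : ℂ) 1 := by
    intro z hz
    rw [mem_closedBall_zero_iff] at hz ⊢
    exact moeb_norm hc0 hc1 zero_le_one le_rfl (by ring) le_rfl hz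
  have hφd : ∀ z ∈ closedBall (0 : ℂ) 1, DifferentiableAt ℂ φ z := by
    intro z hz
    rw [mem_closedBall_zero_iff] at hz
    exact DifferentiableAt.div (by fun_prop) (by fun_prop) (moeb_den hc0 hc1 hz)
  have hφa : ∀ z : ℂ, ‖z‖ ≤ s → ‖φ z‖ ≤ a := by
    intro z hz
    refine moeb_norm hc0 hc1 hs0.le hs1.le ?_ ha1.le hz
    rw [hs]
    field_simp
    ring
  have hφt : φ (t : ℂ) = b := by
    have h1 : (t + c) / (1 + c * t) = b := by
      have h2 : 0 < 1 + c * t := by positivity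
      rw [div_eq_iff h2.ne', ht]
      field_simp
      ring
    simp only [hφ]
    rw [← h1]
    push_cast
    rfl
  have h1 := three1 (F₀ := fun z => F (φ z)) (a := s) (b := t) (m := m) (fun z hz => by
      have h2 := hφ1 z hz
      have h3 : DifferentiableAt ℂ F (φ z) := (hF _ (hsub h2)).differentiableAt (isOpen_ball.mem_nhds (hsub h2))
      exact h3.comp z (hφd z hz))
    (fun z hz => by
      have h2 := hφ1 z hz
      rw [hFv _ (hsub h2)]
      exact hb _ h2)
    hs0 hs1 (by linarith) ht1 hm0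
    (fun z hz => by
      have h2 := hφa z hz
      rw [hFv _ (by rw [mem_ball_zero_iff]; linarith)]
      exact hm _ h2)
  rw [hφt, hFv _ (by
    rw [mem_ball_zero_iff, Complex.norm_real, Real.norm_of_nonneg (by linarith)]
    linarith)] at h1
  have e1 : s / 2 = (a - c) / (2 * (1 - a * c)) := by
    rw [hs]; field_simp
  rw [e1] at h1
  set lam := Real.log t / Real.log ((a - c) / (2 * (1 - a * c))) with hlam
  have hlam0 : 0 ≤ lam := by
    rw [hlam, ← e1]
    exact div_nonneg_of_nonpos (Real.log_nonpos ht0.le ht1.le) (Real.log_nonpos (by linarith) (by linarith))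
  refine h1.trans ?_
  refine (arctan_le_rpow (Real.rpow_pos_of_pos hm0 _) (Real.rpow_le_one hm0.le hm1 hlam0)).trans ?_
  rw [← Real.rpow_mul hm0.le, mul_comm]

end TBP
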