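import Pool.Agent.Lib.MP_8b37c6_anQ.Main

/-!
# MP_8b37c6_an, plane case: further test functions and the behaviour for outer ratio near one
-/

namespace TBP

open Complex Metric InnerProductSpace Real Set Laplacian TB

/-- the test function with a zero of order `k` -/
noncomputable def tstk (k : ℕ) (R : ℝ) (x : TB.E 2) : ℂ :=
  ((W ((Complex.orthonormalBasisOneI.repr.symm (R⁻¹ • x)) ^ k)).re : ℂ)

theorem tstk_harm {k : ℕ} (hk : 1 ≤ k) {R : ℝ} (hR : 0 < R) : HarmonicOnNhd (tstk k R) (ball 0 R) := by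
  intro x hx
  have hx1 : ‖R⁻¹ • x‖ < 1 := by
    rw [norm_smul, norm_inv, Real.norm_of_nonneg hR.le, inv_mul_lt_iff₀ hR, mul_one]
    simpa using hx
  set ψ : TB.E 2 ≃ₗᵢ[ℝ] ℂ := Complex.orthonormalBasisOneI.repr.symm with hψ
  have hz : ‖ψ (R⁻¹ • x)‖ < 1 := by rw [ψ.norm_map]; exact hx1
  have h1 : HarmonicAt (fun z : ℂ => (W (z ^ k)).re) (ψ (R⁻¹ • x)) := by
    have h3 : AnalyticAt ℂ W ((fun z : ℂ => z ^ k) (ψ (R⁻¹ • x))) := by
      refine W_analytic ?_
      simp only
      rw [norm_pow]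
      exact pow_lt_one₀ (norm_nonneg _) hz (by omega)
    have h4 : AnalyticAt ℂ (fun z : ℂ => z ^ k) (ψ (R⁻¹ • x)) := by fun_prop
    have h2 : AnalyticAt ℂ (W ∘ fun z : ℂ => z ^ k) (ψ (R⁻¹ • x)) :=
      AnalyticAt.comp (f := fun z : ℂ => z ^ k) h3 h4
    exact h2.harmonicAt_re
  have h2 := harm_iso ψ h1
  have h3 := harm_dil (f := (fun z : ℂ => (W (z ^ k)).re) ∘ ψ) h2
  exact h3.comp_CLM Complex.ofRealCLM

theorem tstk_M {k : ℕ} (hk : 1 ≤ k) {R s : ℝ} (hR : 0 < R) (hs : 0 < s) (hsR : s ≤ R) :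
    M (tstk k R) s = U ((s / R) ^ k) := by
  have hnorm : ∀ x : TB.E 2, ‖R⁻¹ • x‖ = ‖x‖ / R := by
    intro x
    rw [norm_smul, norm_inv, Real.norm_of_nonneg hR.le, inv_mul_eq_div]
  refine M_eq (g := fun t => U ((t / R) ^ k)) hs ?_ ?_ ?_ (e := Complex.orthonormalBasisOneI.repr 1) (by simp) ?_
  · have : Continuous fun t : ℝ => U ((t / R) ^ k) := by
      unfold U
      exact continuous_const.mul (Real.continuous_arctan.comp ((continuous_id.div_const R).pow k))
    exact this.continuousOn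
  · intro t ht t' _ htt
    exact U_mono (pow_le_pow_left₀ (div_nonneg ht.1 hR.le) (by gcongr) k)
  · intro x hx
    unfold tstk
    rw [Complex.norm_real, Real.norm_eq_abs]
    have h1 : ‖Complex.orthonormalBasisOneI.repr.symm (R⁻¹ • x)‖ = ‖x‖ / R := by
      rw [LinearIsometryEquiv.norm_map, hnorm]
    have h0 : ‖x‖ / R < 1 := by rw [div_lt_one hR]; linarith
    have h2 := W_abs (z := (Complex.orthonormalBasisOneI.repr.symm (R⁻¹ • x)) ^ k) (by
      rw [norm_pow, h1]
      exact pow_lt_one₀ (by positivity) h0 (by omega))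
    rw [norm_pow, h1] at h2
    exact h2
  · intro t ht hts
    unfold tstk
    rw [Complex.norm_real, Real.norm_eq_abs]
    have h1 : Complex.orthonormalBasisOneI.repr.symm (R⁻¹ • t • Complex.orthonormalBasisOneI.repr 1) = ((t / R : ℝ) : ℂ) := by
      rw [smul_smul, map_smul, LinearIsometryEquiv.symm_apply_apply]
      rw [Complex.real_smul, mul_one, inv_mul_eq_div]
    rw [h1, ← Complex.ofReal_pow, W_real, abs_of_nonneg]
    unfold U
    have := Real.arctan_nonneg.2 (show 0 ≤ (t / R) ^ k by positivity)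
    positivity

/-- the upper bounds for the optimal exponent -/
theorem adm_le_k {k : ℕ} (hk : 1 ≤ k) {a b R α : ℝ} (ha : 0 < a) (hab : a < b) (hb : b < 1) (hR : 0 < R)
    (h : Admissible 2 (a * R) (b * R) R α) : α ≤ Real.log (U (b ^ k)) / Real.log (U (a ^ k)) := by
  have hb0 := ha.trans hab
  have h1 := h (tstk k R) (tstk_harm hk hR) ⟨1, fun x hx => by
    have hx1 : ‖x‖ < R := by simpa using hx
    unfold tstk
    rw [Complex.norm_real, Real.norm_eq_abs]
    refine W_re_le_one ?_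
    rw [norm_pow, LinearIsometryEquiv.norm_map, norm_smul, norm_inv, Real.norm_of_nonneg hR.le]
    refine pow_lt_one₀ (by positivity) ?_ (by omega)
    rw [inv_mul_lt_iff₀ hR, mul_one]
    exact hx1⟩
  rw [tstk_M hk hR (by positivity) (by nlinarith), tstk_M hk hR (by positivity) (by nlinarith), tstk_M hk hR hR le_rfl] at h1
  have e1 : a * R / R = a := by field_simp
  have e2 : b * R / R = b := by field_simp
  have e3 : R / R = 1 := div_self hR.ne'
  rw [e1, e2, e3, one_pow, U_one, Real.one_rpow, mul_one] at h1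
  have hak : 0 < a ^ k := by positivity
  have hak1 : a ^ k < 1 := pow_lt_one₀ ha.le (hab.trans hb) (by omega)
  have hUa := U_pos hak
  have hUa1 := U_lt_one hak1
  have h2 := Real.log_le_log (U_pos (by positivity : 0 < b ^ k)) h1
  rw [Real.log_rpow hUa] at h2
  rw [le_div_iff_of_neg (Real.log_neg hUa hUa1)]
  exact h2

theorem aStar_le_k {k : ℕ} (hk : 1 ≤ k) {a b R : ℝ} (ha : 0 < a) (hab : a < b) (hb : b < 1) (hR : 0 < R) :
    aStar 2 (a * R) (b * R) R ≤ Real.log (U (b ^ k)) / Real.log (U (a ^ k)) := by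
  have hb0 : 0 < b := ha.trans hab
  unfold aStar
  refine Real.sSup_le ?_ ?_
  · rintro α ⟨_, _, h⟩
    exact adm_le_k hk ha hab hb hR h
  · refine (div_pos_of_neg_of_neg ?_ ?_).le
    · exact Real.log_neg (U_pos (by positivity)) (U_lt_one (pow_lt_one₀ hb0.le hb (by omega)))
    · exact Real.log_neg (U_pos (by positivity)) (U_lt_one (pow_lt_one₀ ha.le (hab.trans hb) (by omega)))

theorem log_U {r : ℝ} (hr : 0 < r) : Real.log (U r) = -psi (-Real.log r) := by
  rw [U_eq hr, Real.log_exp]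

theorem psi_lt {s : ℝ} (hs : 0 < s) : psi s < s := by
  have hl2 := Real.log_pos (one_lt_two : (1 : ℝ) < 2)
  set t := s + Real.log 2 with ht
  have h1 : psi t ≤ t := by
    have h2 : Real.exp (-t) ≤ 1 / 2 := by
      have h3 : Real.exp (-t) ≤ Real.exp (-Real.log 2) := Real.exp_le_exp.2 (by rw [ht]; linarith)
      rw [Real.exp_neg, Real.exp_neg, Real.exp_log two_pos] at h3
      rw [Real.exp_neg]
      linarith
    have h3 := le_U (Real.exp_pos (-t)) h2
    have h4 := U_eq (Real.exp_pos (-t))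
    rw [Real.log_exp, neg_neg] at h4
    rw [h4] at h3
    have := Real.exp_le_exp.1 h3
    linarith
  have h2 := psi_ratio hs (t := t) (by rw [ht]; linarith)
  have ht0 : 0 < t := by rw [ht]; linarith
  have h3 : psi s * t < s * t := by
    have := mul_le_mul_of_nonneg_right h1 hs.le
    linarith
  exact lt_of_mul_lt_mul_right h3 ht0.le

theorem psi_ge_lin {s : ℝ} (hs : 0 < s) : 2 / π * s ≤ psi s := by
  have h2 := psi_conv.convexOn.le_slope_of_hasDerivAt (mem_Ici.2 le_rfl) (mem_Ici.2 hs.le) hs (psi_deriv 0)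
  rw [slope_def_field, psi_zero, sub_zero, sub_zero, neg_zero, Real.exp_zero, Real.arctan_one] at h2
  have h3 : (1 : ℝ) / ((1 + 1 ^ 2) * (π / 4)) = 2 / π := by
    field_simp
    norm_num
  rw [h3, le_div_iff₀ hs] at h2
  exact h2

theorem psi_ge_sub (s : ℝ) : s - 1 / 4 ≤ psi s := by
  have h1 := U_le (Real.exp_pos (-s))
  have h4 := U_eq (Real.exp_pos (-s))
  rw [Real.log_exp, neg_neg] at h4
  have hp := Real.pi_gt_d2
  have h5 : 4 / π ≤ Real.exp (1 / 4) := by
    have h6 := Real.add_one_le_exp (1 / 4 : ℝ)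
    have h8 := Real.quadratic_le_exp_of_nonneg (x := 1 / 4) (by norm_num)
    rw [div_le_iff₀ Real.pi_pos]
    nlinarith
  rw [h4] at h1
  have h6 : Real.exp (-psi s) ≤ Real.exp (1 / 4 + -s) := by
    rw [Real.exp_add]
    exact h1.trans (mul_le_mul_of_nonneg_right h5 (Real.exp_pos _).le)
  have := Real.exp_le_exp.1 h6
  linarith

/-- the asymptotic upper bound -/
theorem upper_asym {a ε : ℝ} (ha : 0 < a) (ha1 : a < 1) (hε : 0 < ε) : ∃ b0 : ℝ, b0 < 1 ∧ ∀ b : ℝ, b0 < b → b < 1 → a < b →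
    ∃ k : ℕ, 1 ≤ k ∧ Real.log (U (b ^ k)) / Real.log (U (a ^ k)) ≤ (2 / π + ε) * (1 - b) / -Real.log a := by
  have hp := Real.pi_pos
  have hla := Real.log_neg ha ha1
  set l := -Real.log a with hl
  have hl0 : 0 < l := by rw [hl]; linarith
  have h2p : 0 < 2 / π := by positivity
  obtain ⟨k, hk⟩ := exists_nat_gt ((2 / π + ε) / (ε * l))
  have hkpos : (0 : ℝ) < k := lt_trans (by positivity) hk
  have hk1 : 1 ≤ k := by
    have : 0 < k := by exact_mod_cast hkpos
    omega
  rw [div_lt_iff₀ (by positivity)] at hk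
  set D := psi (k * l) with hD
  have hD1 : k * l - 1 / 4 ≤ D := psi_ge_sub _
  have hD2 : 2 / π * k * l < (2 / π + ε) * D := by
    have h1 : (2 / π + ε) * (k * l - 1 / 4) ≤ (2 / π + ε) * D := mul_le_mul_of_nonneg_left hD1 (by positivity)
    nlinarith
  have hD0 : 0 < D := psi_pos (by positivity)
  have hUa : Real.log (U (a ^ k)) = -D := by
    rw [log_U (by positivity), Real.log_pow, hD, hl]
    congr 2
    ring
  set τ := (2 / π + ε) * D / l with hτ
  have hτ1 : 2 / π * k < τ := by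
    rw [hτ, lt_div_iff₀ hl0]
    exact hD2
  have hder : HasDerivAt (fun b : ℝ => psi (-(k * Real.log b))) (-(2 / π * k)) 1 := by
    have h1 : HasDerivAt (fun b : ℝ => -(k * Real.log b)) (-(k * 1⁻¹)) 1 :=
      ((Real.hasDerivAt_log one_ne_zero).const_mul (k : ℝ)).neg
    have h2 : HasDerivAt psi (2 / π) (-(k * Real.log 1)) := by
      have h3 := psi_deriv 0
      have h4 : Real.exp (-0) / ((1 + Real.exp (-0) ^ 2) * Real.arctan (Real.exp (-0))) = 2 / π := by
        rw [neg_zero, Real.exp_zero, Real.arctan_one]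
        field_simp
        norm_num
      rw [h4] at h3
      simpa using h3
    refine (h2.comp 1 h1).congr_deriv ?_
    ring
  have hs := hder.tendsto_slope
  have hs2 : Filter.Tendsto (slope (fun b : ℝ => psi (-(k * Real.log b))) 1) (nhdsWithin 1 (Iio 1)) (nhds (-(2 / π * k))) :=
    hs.mono_left (nhdsWithin_mono _ fun x hx => ne_of_lt hx)
  have hev := hs2.eventually (lt_mem_nhds (show -τ < -(2 / π * k) by linarith))
  obtain ⟨b0, hb0, hsub⟩ := mem_nhdsLT_iff_exists_Ioo_subset.1 hev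
  refine ⟨b0, hb0, fun b hb hb1 hab => ⟨k, hk1, ?_⟩⟩
  have hb00 : 0 < b := ha.trans hab
  have h1 : -τ < slope (fun b : ℝ => psi (-(k * Real.log b))) 1 b := hsub ⟨hb, hb1⟩
  rw [slope_def_field] at h1
  have h2 : psi (-(k * Real.log 1)) = 0 := by rw [Real.log_one, mul_zero, neg_zero, psi_zero]
  simp only [h2, sub_zero] at h1
  have h3 : psi (-(k * Real.log b)) < τ * (1 - b) := by
    rw [lt_div_iff_of_neg (by linarith)] at h1
    linarith
  have hUb : Real.log (U (b ^ k)) = -psi (-(k * Real.log b)) := by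
    rw [log_U (by positivity), Real.log_pow]
  rw [hUa, hUb, neg_div_neg_eq, div_le_div_iff₀ hD0 hl0]
  have h4 : τ * (1 - b) * l = (2 / π + ε) * (1 - b) * D := by
    rw [hτ]; field_simp
  have h5 := mul_lt_mul_of_pos_right h3 hl0
  linarith

theorem near_one : ∀ a ε : ℝ, 0 < a → a < 1 → 0 < ε → ∃ b0 : ℝ, b0 < 1 ∧ ∀ b R : ℝ, b0 < b → a < b → b < 1 → 0 < R →
    2 / π * (1 - b) / Real.log (2 / a) ≤ TB.aStar 2 (a * R) (b * R) R ∧
    TB.aStar 2 (a * R) (b * R) R ≤ (2 / π + ε) * (1 - b) / Real.log (1 / a) ∧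
    TB.aStar 2 (a * R) (b * R) R < Real.log (4 / π * Real.arctan b) / Real.log (4 / π * Real.arctan a) := by
  intro a ε ha ha1 hε
  have hp := Real.pi_pos
  have hla := Real.log_neg ha ha1
  have h2p : 0 < 2 / π := by positivity
  set l := -Real.log a with hl
  have hl0 : 0 < l := by rw [hl]; linarith
  set D := psi l with hD
  have hD0 : 0 < D := psi_pos hl0
  have hDl : D < l := psi_lt hl0
  set ε' := min ε ((l - D) / (π * D)) with hε'
  have hε'0 : 0 < ε' := lt_min hε (div_pos (by linarith) (by positivity))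
  have hε'1 : ε' ≤ ε := min_le_left _ _
  have hε'2 : ε' * (π * D) ≤ l - D := by
    rw [← le_div_iff₀ (by positivity)]
    exact min_le_right _ _
  have hkey : (2 / π + ε') * D < 2 / π * l := by
    have h1 : ε' * D ≤ (l - D) / π := by
      rw [le_div_iff₀ hp]; linarith
    have h2 : (l - D) / π < 2 / π * (l - D) := by
      rw [div_mul_eq_mul_div]
      exact div_lt_div_of_pos_right (by linarith) hp
    linarith
  obtain ⟨b0, hb0, hb⟩ := upper_asym ha ha1 hε'0
  refine ⟨b0, hb0, fun b R hbb hab hb1 hR => ?_⟩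
  obtain ⟨k, hk, hkb⟩ := hb b hbb hb1 hab
  have hb00 : 0 < b := ha.trans hab
  have h1 := (aStar_le_k hk ha hab hb1 hR).trans hkb
  rw [← hl] at h1
  have e1 : Real.log (1 / a) = l := by rw [one_div, Real.log_inv]
  refine ⟨?_, ?_, ?_⟩
  · have h2 := ((all_radii a b R ha hab hb1 hR).2.2.2 0 le_rfl ha).1
    refine le_trans ?_ h2
    have e2 : (b - 0) / (1 - b * 0) = b := by simp
    have e3 : (a - 0) / (2 * (1 - a * 0)) = a / 2 := by simp
    rw [e2, e3]
    have h3 : Real.log (a / 2) = -Real.log (2 / a) := by rw [← Real.log_inv, inv_div]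
    have h4 : 0 < Real.log (2 / a) := Real.log_pos (by rw [one_lt_div ha]; linarith)
    have h5 : 1 - b ≤ -Real.log b := by
      have := Real.log_le_sub_one_of_pos hb00
      linarith
    rw [h3, div_neg, ← neg_div, mul_div_assoc]
    refine mul_le_mul_of_nonneg_left ?_ h2p.le
    exact div_le_div_of_nonneg_right h5 h4.le
  · rw [e1]
    refine h1.trans (div_le_div_of_nonneg_right ?_ hl0.le)
    exact mul_le_mul_of_nonneg_right (by linarith) (by linarith)
  · show TB.aStar 2 (a * R) (b * R) R < Real.log (U b) / Real.log (U a)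
    refine lt_of_le_of_lt h1 ?_
    rw [log_U hb00, log_U ha, neg_div_neg_eq, ← hl, ← hD, div_lt_div_iff₀ hl0 hD0]
    have hlb : 0 < -Real.log b := by
      have := Real.log_neg hb00 hb1
      linarith
    have h2 := psi_ge_lin hlb
    have h5 : 1 - b ≤ -Real.log b := by
      have := Real.log_le_sub_one_of_pos hb00
      linarith
    have h6 : 2 / π * (1 - b) ≤ psi (-Real.log b) := (mul_le_mul_of_nonneg_left h5 h2p.le).trans h2
    have h7 : (2 / π + ε') * (1 - b) * D < 2 / π * (1 - b) * l := by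
      have := mul_lt_mul_of_pos_left hkey (show 0 < 1 - b by linarith)
      linarith
    have h8 := mul_le_mul_of_nonneg_right h6 hl0.le
    linarith

theorem all_radii2 :
    (∀ a b R : ℝ, 0 < a → a < b → b < 1 → 0 < R →
      (∀ k : ℕ, 1 ≤ k → TB.aStar 2 (a * R) (b * R) R ≤
        Real.log (4 / π * Real.arctan (b ^ k)) / Real.log (4 / π * Real.arctan (a ^ k))) ∧
      Real.log (4 / π * Real.arctan b) / Real.log (4 / π * Real.arctan a) / 3 ≤ TB.aStar 2 (a * R) (b * R) R ∧
      TB.Admissible 2 (a * R) (b * R) R (Real.log (4 / π * Real.arctan b) / Real.log (4 / π * Real.arctan a) / 3) ∧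
      ∀ c : ℝ, 0 ≤ c → c < a →
        2 / π * (Real.log ((b - c) / (1 - b * c)) / Real.log ((a - c) / (2 * (1 - a * c)))) ≤
          TB.aStar 2 (a * R) (b * R) R ∧
        TB.Admissible 2 (a * R) (b * R) R
          (2 / π * (Real.log ((b - c) / (1 - b * c)) / Real.log ((a - c) / (2 * (1 - a * c)))))) ∧
    (∀ a ε : ℝ, 0 < a → a < 1 → 0 < ε → ∃ b0 : ℝ, b0 < 1 ∧ ∀ b R : ℝ, b0 < b → a < b → b < 1 → 0 < R →
      2 / π * (1 - b) / Real.log (2 / a) ≤ TB.aStar 2 (a * R) (b * R) R ∧
      TB.aStar 2 (a * R) (b * R) R ≤ (2 / π + ε) * (1 - b) / Real.log (1 / a) ∧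
      TB.aStar 2 (a * R) (b * R) R < Real.log (4 / π * Real.arctan b) / Real.log (4 / π * Real.arctan a)) :=
  ⟨fun a b R ha hab hb hR => ⟨fun _ hk => aStar_le_k hk ha hab hb hR, (all_radii a b R ha hab hb hR).2⟩, near_one⟩

end TBP
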