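import Pool.Agent.Lib.MP_8b37c6_anQ.P3

/-!
# MP_8b37c6_an: the optimal exponent in dimension n is at most the one in the plane
-/

namespace TBP

open Metric InnerProductSpace Real Set Laplacian TB

/-- projection to the first two coordinates -/
noncomputable def prL (m : ℕ) : TB.E (m + 2) →ₗ[ℝ] TB.E 2 where
  toFun x := WithLp.toLp 2 ![x 0, x 1]
  map_add' x y := by
    ext i
    fin_cases i <;> simp
  map_smul' c x := by
    ext i
    fin_cases i <;> simp

noncomputable def pr (m : ℕ) : TB.E (m + 2) →L[ℝ] TB.E 2 := (prL m).toContinuousLinearMap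

theorem pr_zero {m : ℕ} (x : TB.E (m + 2)) : pr m x 0 = x 0 := rfl

theorem pr_one {m : ℕ} (x : TB.E (m + 2)) : pr m x 1 = x 1 := rfl

/-- inclusion of the plane -/
noncomputable def inc (m : ℕ) (y : TB.E 2) : TB.E (m + 2) :=
  WithLp.toLp 2 (Fin.cons (y 0) (Fin.cons (y 1) (fun _ : Fin m => 0)))

theorem inc_zero {m : ℕ} (y : TB.E 2) : inc m y 0 = y 0 := rfl

theorem inc_one {m : ℕ} (y : TB.E 2) : inc m y 1 = y 1 := rfl

theorem inc_ss {m : ℕ} (y : TB.E 2) (i : Fin m) : inc m y i.succ.succ = 0 := rfl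

theorem pr_inc {m : ℕ} (y : TB.E 2) : pr m (inc m y) = y := by
  ext i
  fin_cases i
  · exact (pr_zero _).trans (inc_zero _)
  · exact (pr_one _).trans (inc_one _)

theorem norm_inc {m : ℕ} (y : TB.E 2) : ‖inc m y‖ = ‖y‖ := by
  rw [EuclideanSpace.norm_eq, EuclideanSpace.norm_eq, Fin.sum_univ_succ, Fin.sum_univ_succ, Fin.sum_univ_two]
  congr 1
  have h : ∑ i : Fin m, ‖inc m y i.succ.succ‖ ^ 2 = 0 := by
    refine Finset.sum_eq_zero fun i _ => ?_
    rw [inc_ss]; simp
  rw [h]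
  rw [inc_zero]
  have : inc m y (Fin.succ 0) = y 1 := rfl
  rw [this]
  ring

theorem norm_pr {m : ℕ} (x : TB.E (m + 2)) : ‖pr m x‖ ≤ ‖x‖ := by
  rw [EuclideanSpace.norm_eq, EuclideanSpace.norm_eq, Fin.sum_univ_two, Fin.sum_univ_succ, Fin.sum_univ_succ]
  refine Real.sqrt_le_sqrt ?_
  have h : 0 ≤ ∑ i : Fin m, ‖x i.succ.succ‖ ^ 2 := Finset.sum_nonneg fun i _ => sq_nonneg _
  rw [pr_zero, pr_one]
  have : x (Fin.succ 0) = x 1 := rfl
  rw [this]
  linarith

theorem M_pr {m : ℕ} (u : TB.E 2 → ℂ) (s : ℝ) : M (fun x : TB.E (m + 2) => u (pr m x)) s = M u s := by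
  unfold M iSup
  congr 1
  ext t
  constructor
  · rintro ⟨⟨x, hx⟩, rfl⟩
    rw [mem_ball_zero_iff] at hx
    exact ⟨⟨pr m x, by rw [mem_ball_zero_iff]; exact (norm_pr x).trans_lt hx⟩, rfl⟩
  · rintro ⟨⟨y, hy⟩, rfl⟩
    rw [mem_ball_zero_iff] at hy
    refine ⟨⟨inc m y, by rw [mem_ball_zero_iff, norm_inc]; exact hy⟩, ?_⟩
    simp only [pr_inc]

theorem harm_pr {m : ℕ} {u : TB.E 2 → ℂ} {R : ℝ} (hu : HarmonicOnNhd u (ball 0 R)) :
    HarmonicOnNhd (fun x : TB.E (m + 2) => u (pr m x)) (ball 0 R) := by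
  set s : Set (TB.E 2) := ball 0 R with hs
  have hso : IsOpen s := isOpen_ball
  have hpo : IsOpen (pr m ⁻¹' s) := hso.preimage (pr m).continuous
  have hC : ContDiffOn ℝ 2 u s := fun y hy => (hu y hy).1.contDiffWithinAt
  have hlap : ∀ x ∈ pr m ⁻¹' s, (Δ (fun x : TB.E (m + 2) => u (pr m x))) x = (Δ u) (pr m x) := by
    intro x hx
    have h1 := laplacian_eq_iteratedFDeriv_orthonormalBasis (fun x : TB.E (m + 2) => u (pr m x))
      (EuclideanSpace.basisFun (Fin (m + 2)) ℝ)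
    have h2 := laplacian_eq_iteratedFDeriv_orthonormalBasis u (EuclideanSpace.basisFun (Fin 2) ℝ)
    rw [h1, h2]
    simp only
    have h3 := (pr m).iteratedFDerivWithin_comp_right (f := u) (s := s) (n := 2) hC hso.uniqueDiffOn hpo.uniqueDiffOn
      (x := x) hx (i := 2) le_rfl
    rw [iteratedFDerivWithin_of_isOpen 2 hpo hx, iteratedFDerivWithin_of_isOpen 2 hso hx] at h3
    have h4 : (u ∘ (pr m : TB.E (m + 2) → TB.E 2)) = fun x => u (pr m x) := rfl
    rw [h4] at h3
    rw [h3]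
    have h0 : pr m (EuclideanSpace.basisFun (Fin (m + 2)) ℝ 0) = EuclideanSpace.basisFun (Fin 2) ℝ 0 := by
      ext i
      fin_cases i
      · refine (pr_zero _).trans ?_
        simp
      · refine (pr_one _).trans ?_
        simp
    have h1' : pr m (EuclideanSpace.basisFun (Fin (m + 2)) ℝ (Fin.succ 0)) = EuclideanSpace.basisFun (Fin 2) ℝ 1 := by
      ext i
      fin_cases i
      · refine (pr_zero _).trans ?_
        simp
      · refine (pr_one _).trans ?_
        simp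
    have hss : ∀ i : Fin m, pr m (EuclideanSpace.basisFun (Fin (m + 2)) ℝ i.succ.succ) = 0 := by
      intro i
      ext j
      fin_cases j
      · refine (pr_zero _).trans ?_
        simp
      · refine (pr_one _).trans ?_
        simp
        intro h
        have h2 := Fin.succ_injective _ (show Fin.succ (0 : Fin (m + 1)) = i.succ.succ from h)
        exact Fin.succ_ne_zero i h2.symm
    have hev : ∀ e : TB.E (m + 2), ((iteratedFDeriv ℝ 2 u (pr m x)).compContinuousLinearMap fun _ => pr m) ![e, e] =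
        iteratedFDeriv ℝ 2 u (pr m x) ![pr m e, pr m e] := by
      intro e
      rw [ContinuousMultilinearMap.compContinuousLinearMap_apply]
      congr 1
      ext j
      fin_cases j <;> simp
    rw [Fin.sum_univ_succ, Fin.sum_univ_succ, Fin.sum_univ_two]
    simp only [hev, h0, h1', hss]
    have hz : iteratedFDeriv ℝ 2 u (pr m x) ![0, 0] = 0 :=
      (iteratedFDeriv ℝ 2 u (pr m x)).map_coord_zero 0 rfl
    rw [hz, Finset.sum_const_zero, add_zero]
  intro x hx
  have hx' : x ∈ pr m ⁻¹' s := by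
    show pr m x ∈ ball 0 R
    rw [mem_ball_zero_iff] at hx ⊢
    exact (norm_pr x).trans_lt hx
  refine ⟨?_, ?_⟩
  · exact (hu _ hx').1.comp x ((pr m).contDiff.contDiffAt)
  · filter_upwards [hpo.mem_nhds hx'] with y hy
    rw [hlap y hy]
    have := (hu _ hy).2.self_of_nhds
    simpa using this

theorem adm_two {m : ℕ} {ρ r R α : ℝ} (h : Admissible (m + 2) ρ r R α) : Admissible 2 ρ r R α := by
  intro u hu hC
  obtain ⟨C, hC⟩ := hC
  have h1 := h (fun x => u (pr m x)) (harm_pr hu) ⟨C, fun x hx => hC _ (by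
    rw [mem_ball_zero_iff] at hx ⊢
    exact (norm_pr x).trans_lt hx)⟩
  rwa [M_pr, M_pr, M_pr] at h1

/-- the optimal exponent in dimension n is at most the one in the plane -/
theorem aStar_le_two {n : ℕ} (hn : 2 ≤ n) (ρ r R : ℝ) : aStar n ρ r R ≤ aStar 2 ρ r R := by
  obtain ⟨m, rfl⟩ : ∃ m, n = m + 2 := ⟨n - 2, by omega⟩
  unfold aStar
  refine Real.sSup_le ?_ (Real.sSup_nonneg fun α h => h.1.le)
  rintro α ⟨h0, h1, h2⟩
  refine le_csSup ⟨1, ?_⟩ ⟨h0, h1, adm_two h2⟩
  rintro β ⟨_, h, _⟩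
  exact h.le

end TBP
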