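import Pool.Agent.Lib.MP_8b37c6_anQ.P4

/-!
# MP_8b37c6_an: bounds for the optimal exponent for all radii
-/

namespace TBP

open Real

theorem all_radii3 :
    (∀ n : ℕ, 2 ≤ n → ∀ a b R : ℝ, 0 < a → a < b → b < 1 → 0 < R → ∀ k : ℕ, 1 ≤ k →
      TB.aStar n (a * R) (b * R) R ≤ log (4 / π * arctan (b ^ k)) / log (4 / π * arctan (a ^ k))) ∧
    (∀ a b R : ℝ, 0 < a → a < b → b < 1 → 0 < R →
      log (4 / π * arctan b) / log (4 / π * arctan a) / 3 ≤ TB.aStar 2 (a * R) (b * R) R ∧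
      TB.Admissible 2 (a * R) (b * R) R (log (4 / π * arctan b) / log (4 / π * arctan a) / 3) ∧
      2 / π * (1 - b) / log (2 / a) ≤ TB.aStar 2 (a * R) (b * R) R ∧
      ∀ c : ℝ, 0 ≤ c → c < a →
        2 / π * (log ((b - c) / (1 - b * c)) / log ((a - c) / (2 * (1 - a * c)))) ≤ TB.aStar 2 (a * R) (b * R) R ∧
        TB.Admissible 2 (a * R) (b * R) R
          (2 / π * (log ((b - c) / (1 - b * c)) / log ((a - c) / (2 * (1 - a * c)))))) ∧
    (∀ a ε : ℝ, 0 < a → a < 1 → 0 < ε → ∃ b0 : ℝ, b0 < 1 ∧ ∀ n : ℕ, 2 ≤ n → ∀ b R : ℝ, b0 < b → a < b → b < 1 → 0 < R →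
      TB.aStar n (a * R) (b * R) R ≤ (2 / π + ε) * (1 - b) / log (1 / a) ∧
      TB.aStar n (a * R) (b * R) R < log (4 / π * arctan b) / log (4 / π * arctan a)) := by
  refine ⟨fun n hn a b R ha hab hb hR k hk => ?_, fun a b R ha hab hb hR => ⟨?_, ?_, ?_, ?_⟩, fun a ε ha ha1 hε => ?_⟩
  · exact (aStar_le_two hn _ _ _).trans (aStar_le_k hk ha hab hb hR)
  · exact (all_radii a b R ha hab hb hR).2.1
  · exact (all_radii a b R ha hab hb hR).2.2.1
  · have h2 := ((all_radii a b R ha hab hb hR).2.2.2 0 le_rfl ha).1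
    refine le_trans ?_ h2
    have hb0 : 0 < b := ha.trans hab
    have e2 : (b - 0) / (1 - b * 0) = b := by simp
    have e3 : (a - 0) / (2 * (1 - a * 0)) = a / 2 := by simp
    rw [e2, e3]
    have h3 : Real.log (a / 2) = -Real.log (2 / a) := by rw [← Real.log_inv, inv_div]
    have h4 : 0 < Real.log (2 / a) := Real.log_pos (by rw [one_lt_div ha]; linarith)
    have h5 : 1 - b ≤ -Real.log b := by
      have := Real.log_le_sub_one_of_pos hb0
      linarith
    rw [h3, div_neg, ← neg_div, mul_div_assoc]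
    refine mul_le_mul_of_nonneg_left ?_ (by positivity)
    exact div_le_div_of_nonneg_right h5 h4.le
  · exact (all_radii a b R ha hab hb hR).2.2.2
  · obtain ⟨b0, hb0, h⟩ := near_one a ε ha ha1 hε
    refine ⟨b0, hb0, fun n hn b R h1 h2 h3 hR => ?_⟩
    obtain ⟨_, h5, h6⟩ := h b R h1 h2 h3 hR
    have h7 := aStar_le_two hn (a * R) (b * R) R
    exact ⟨h7.trans h5, lt_of_le_of_lt h7 h6⟩

end TBP
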