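import Pool.Agent.Lib.MP_8b37c6_anQ.P5

/-!
# MP_8b37c6_an: an explicit lower bound in every dimension
-/

namespace TBP

open Metric InnerProductSpace Real Set TB MeasureTheory

/-- Harnack's inequality at the centre -/
theorem harnack_n {n : ℕ} (hn : 1 ≤ n) {v : TB.E n → ℝ} (hv : HarmonicOnNhd v (closedBall (0 : TB.E n) 1))
    (hv1 : ∀ x : TB.E n, ‖x‖ ≤ 1 → |v x| ≤ 1) {b : ℝ} (hb0 : 0 < b) (hb1 : b < 1) {e : TB.E n} (he : ‖e‖ = 1) :
    v (b • e) ≤ 1 - (1 - b) / (1 + b) ^ (n - 1) * (1 - v 0) := by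
  have hprob := sig_prob n
  have hx : ‖b • e‖ < 1 := by
    rw [norm_smul, he, mul_one, Real.norm_of_nonneg hb0.le]; exact hb1
  have hxb : ‖b • e‖ = b := by rw [norm_smul, he, mul_one, Real.norm_of_nonneg hb0.le]
  have h0 : ‖(0 : TB.E n)‖ < 1 := by simp
  have hcont : ContinuousOn v (closedBall (0 : TB.E n) 1) := fun z hz =>
    (hv z hz).1.continuousAt.continuousWithinAt
  have hm := sig_aesm hn hcont
  have hg : AEStronglyMeasurable (fun ζ : TB.E n => 1 - v ζ) (sig n) := aestronglyMeasurable_const.sub hm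
  have hG : ∀ ζ : TB.E n, ‖ζ‖ = 1 → |1 - v ζ| ≤ 2 := fun ζ hζ => by
    have := abs_le.1 (hv1 ζ hζ.le)
    rw [abs_le]; constructor <;> linarith
  have hG1 : ∀ ζ : TB.E n, ‖ζ‖ = 1 → |v ζ| ≤ 1 := fun ζ hζ => hv1 ζ hζ.le
  have i1 := Pk_int hn hx hg hG
  have i2 := Pk_int hn hx hm hG1
  have i3 := Pk_int hn h0 hm hG1
  have i4 := Pk_int hn h0 hg hG
  have hone : AEStronglyMeasurable (fun _ : TB.E n => (1 : ℝ)) (sig n) := aestronglyMeasurable_const
  have j1 := Pk_int hn hx hone (G := 1) (fun _ _ => by simp)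
  have j0 := Pk_int hn h0 hone (G := 1) (fun _ _ => by simp)
  simp only [mul_one] at j1 j0
  have e1 : 1 - v (b • e) = ∫ ζ, Pk (b • e) ζ * (1 - v ζ) ∂(sig n) := by
    have : (fun ζ : TB.E n => Pk (b • e) ζ * (1 - v ζ)) = fun ζ => Pk (b • e) ζ - Pk (b • e) ζ * v ζ := by
      ext ζ; ring
    rw [this, integral_sub j1 i2, mass_one hn hx, ← poisson hn hv hx]
  have e0 : 1 - v 0 = ∫ ζ, Pk (0 : TB.E n) ζ * (1 - v ζ) ∂(sig n) := by
    have : (fun ζ : TB.E n => Pk (0 : TB.E n) ζ * (1 - v ζ)) = fun ζ => Pk (0 : TB.E n) ζ - Pk (0 : TB.E n) ζ * v ζ := by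
      ext ζ; ring
    rw [this, integral_sub j0 i3, mass_one hn h0, ← poisson hn hv h0]
  have key : (1 - b) / (1 + b) ^ (n - 1) * (1 - v 0) ≤ 1 - v (b • e) := by
    rw [e1, e0, ← integral_const_mul]
    refine integral_mono_ae (i4.const_mul _) i1 ?_
    filter_upwards [sig_unit hn] with ζ hζ
    have h1 : 0 ≤ 1 - v ζ := by
      have := (abs_le.1 (hv1 ζ hζ.le)).2
      linarith
    have h2 := le_Pk hx hζ
    rw [Pk_zero hζ, one_mul]
    refine mul_le_mul_of_nonneg_right ?_ h1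
    rw [hxb] at h2
    have e3 : (1 - b) / (1 + b) ^ (n - 1) = (1 - b ^ 2) / (1 + b) ^ n := by
      obtain ⟨j, rfl⟩ : ∃ j, n = j + 1 := ⟨n - 1, by omega⟩
      have h3 : (1 + b) ≠ 0 := by linarith
      rw [Nat.add_sub_cancel, pow_succ (1 + b) j, div_eq_div_iff (pow_ne_zero _ h3) (mul_ne_zero (pow_ne_zero _ h3) h3)]
      ring
    rw [e3]
    exact h2
  linarith

theorem lower_n {n : ℕ} (hn : 2 ≤ n) {a b R : ℝ} (ha : 0 < a) (hab : a < b) (hb1 : b < 1) (hR : 0 < R) {k : ℕ}
    (hk : b < a ^ ((1 / 2 : ℝ) ^ k)) :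
    (1 / 2 : ℝ) ^ k * (1 - b) / (4 * n * (1 + b) ^ (n - 1) * Real.log (2 / (a ^ ((1 / 2 : ℝ) ^ k) - b))) ≤
      TB.aStar n (a * R) (b * R) R := by
  have hn1 : 1 ≤ n := by omega
  have hn2 : (2 : ℝ) ≤ n := by exact_mod_cast hn
  have hb0 : 0 < b := ha.trans hab
  have ha1 : a < 1 := hab.trans hb1
  set θ : ℝ := (1 / 2 : ℝ) ^ k with hθ
  have hθ0 : 0 < θ := by positivity
  have hθ1 : θ ≤ 1 := pow_le_one₀ (by norm_num) (by norm_num)
  have haθ : a ^ θ < 1 := Real.rpow_lt_one ha.le ha1 hθ0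
  set d := a ^ θ - b with hd
  have hd0 : 0 < d := by rw [hd]; linarith
  have hd1 : d < 1 := by rw [hd]; linarith
  set lg := Real.log (2 / d) with hlg
  have hlg1 : Real.log 2 ≤ lg := Real.log_le_log two_pos (by rw [le_div_iff₀ hd0]; linarith)
  have hl2 := Real.log_two_gt_d9
  have hlg0 : 0 < lg := by linarith
  set h := (1 - b) / (1 + b) ^ (n - 1) with hh
  have hpw : 1 ≤ (1 + b) ^ (n - 1) := one_le_pow₀ (by linarith)
  have hh0 : 0 < h := div_pos (by linarith) (by positivity)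
  have hh1 : h ≤ 1 := by
    rw [hh, div_le_one (by positivity)]; linarith
  set γ := θ * (1 - b) / (4 * n * (1 + b) ^ (n - 1) * lg) with hγ
  have hγe : γ * (4 * (n * lg)) = θ * h := by
    rw [hγ, hh]
    field_simp
  have hnl : 1.38 ≤ n * lg := by nlinarith
  have hγ0 : 0 < γ := by
    have : 0 < 1 - b := by linarith
    positivity
  have hγθ : γ ≤ θ / 2 := by
    have h1 : θ * h ≤ θ := mul_le_of_le_one_right hθ0.le hh1
    nlinarith
  have hγh : 2 * γ ≤ h := by
    have h1 : θ * h ≤ h := mul_le_of_le_one_left hh0.le hθ1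
    nlinarith
  have hγ1 : γ < 1 := by linarith
  have hadm : Admissible n (a * R) (b * R) R γ := by
    refine adm_of_unit' ha hab hb1 hR hγ1 ?_
    intro v hv h1 m hm e he
    have hv0 : |v 0| ≤ m := hm 0 (by rw [norm_zero]; exact ha.le)
    have hm0 : 0 ≤ m := (abs_nonneg _).trans hv0
    have hbe : ‖b • e‖ = b := by rw [norm_smul, he, mul_one, Real.norm_of_nonneg hb0.le]
    rcases le_or_gt 1 m with hm1 | hm1
    · have h2 : v (b • e) ≤ 1 := (le_abs_self _).trans (h1 _ (by rw [hbe]; exact hb1.le))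
      exact h2.trans (Real.one_le_rpow hm1 hγ0.le)
    have hB := B_final hn1 hv h1 ha hab hb1 hm he hk
    rw [← hθ] at hB
    rcases hm0.eq_or_lt with hm2 | hm2
    · rw [← hm2, Real.zero_rpow hγ0.ne']
      rw [← hm2, Real.zero_rpow hθ0.ne', mul_zero] at hB
      exact hB
    set x := -Real.log m with hx
    have hx0 : 0 < x := by
      have := Real.log_neg hm2 hm1
      rw [hx]; linarith
    have hmγ : m ^ γ = Real.exp (-(γ * x)) := by
      rw [Real.rpow_def_of_pos hm2, hx]; congr 1; ring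
    rcases le_or_gt x (2 / θ * (n * lg)) with hxx | hxx
    · -- Harnack
      have h2 := harnack_n hn1 hv h1 hb0 hb1 he
      rw [← hh] at h2
      have h3 : h * (1 - m) ≤ h * (1 - v 0) :=
        mul_le_mul_of_nonneg_left (by linarith [(abs_le.1 hv0).2]) hh0.le
      have h4 : γ * x ≤ h * (1 - m) := by
        rcases le_or_gt m (1 / 2) with h5 | h5
        · have h6 : γ * x ≤ γ * (2 / θ * (n * lg)) := mul_le_mul_of_nonneg_left hxx hγ0.le
          have h7 : γ * (2 / θ * (n * lg)) = h / 2 := by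
            have : γ * (2 / θ * (n * lg)) = γ * (4 * (n * lg)) / (2 * θ) := by field_simp; ring
            rw [this, hγe]; field_simp
          rw [h7] at h6
          nlinarith
        · have h6 : x ≤ 2 * (1 - m) := by
            have h7 := Real.one_sub_inv_le_log_of_pos hm2
            have h8 : m⁻¹ - 1 ≤ 2 * (1 - m) := by
              have h9 : m⁻¹ - 1 = (1 - m) / m := by field_simp
              rw [h9, div_le_iff₀ hm2]
              nlinarith
            rw [hx]; linarith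
          have h7 : γ * x ≤ γ * (2 * (1 - m)) := mul_le_mul_of_nonneg_left h6 hγ0.le
          have h8 : 2 * γ * (1 - m) ≤ h * (1 - m) := mul_le_mul_of_nonneg_right hγh (by linarith)
          linarith
      rw [hmγ]
      have h5 := Real.add_one_le_exp (-(γ * x))
      linarith
    · -- small values
      refine hB.trans ?_
      have h2 : (2 / d) ^ n = Real.exp (n * lg) := by
        rw [hlg, ← Real.log_pow, Real.exp_log (by positivity)]
      have h3 : m ^ θ = Real.exp (-(θ * x)) := by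
        rw [Real.rpow_def_of_pos hm2, hx]; congr 1; ring
      rw [h2, h3, ← Real.exp_add, hmγ]
      refine Real.exp_le_exp.2 ?_
      have h4 : n * lg < θ / 2 * x := by
        have h5 := mul_lt_mul_of_pos_left hxx (show 0 < θ / 2 by positivity)
        have h6 : θ / 2 * (2 / θ * (n * lg)) = n * lg := by field_simp
        linarith
      have h5 : γ * x ≤ θ / 2 * x := mul_le_mul_of_nonneg_right hγθ hx0.le
      linarith
  unfold aStar
  refine le_csSup ⟨1, ?_⟩ ⟨hγ0, hγ1, hadm⟩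
  rintro α ⟨_, h, _⟩
  exact h.le

end TBP
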