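import Pool.Agent.Lib.MP_8b37c6_anQ.P6

/-!
# MP_8b37c6_an: bounds for the optimal exponent for all radii and all dimensions
-/

namespace TBP

open Real

theorem all_radii4 :
    (∀ n : ℕ, 2 ≤ n → ∀ a b R : ℝ, 0 < a → a < b → b < 1 → 0 < R →
      (∀ k : ℕ, 1 ≤ k →
        TB.aStar n (a * R) (b * R) R ≤ log (4 / π * arctan (b ^ k)) / log (4 / π * arctan (a ^ k))) ∧
      (∀ k : ℕ, b < a ^ ((1 / 2 : ℝ) ^ k) →
        (1 / 2 : ℝ) ^ k * (1 - b) / (4 * n * (1 + b) ^ (n - 1) * log (2 / (a ^ ((1 / 2 : ℝ) ^ k) - b))) ≤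
          TB.aStar n (a * R) (b * R) R)) ∧
    (∀ a b R : ℝ, 0 < a → a < b → b < 1 → 0 < R →
      log (4 / π * arctan b) / log (4 / π * arctan a) / 3 ≤ TB.aStar 2 (a * R) (b * R) R ∧
      TB.Admissible 2 (a * R) (b * R) R (log (4 / π * arctan b) / log (4 / π * arctan a) / 3) ∧
      2 / π * (1 - b) / log (2 / a) ≤ TB.aStar 2 (a * R) (b * R) R ∧
      ∀ c : ℝ, 0 ≤ c → c < a →
        2 / π * (log ((b - c) / (1 - b * c)) / log ((a - c) / (2 * (1 - a * c)))) ≤ TB.aStar 2 (a * R) (b * R) R ∧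
        TB.Admissible 2 (a * R) (b * R) R
          (2 / π * (log ((b - c) / (1 - b * c)) / log ((a - c) / (2 * (1 - a * c)))))) ∧
    (∀ a ε : ℝ, 0 < a → a < 1 → 0 < ε → ∃ b0 : ℝ, b0 < 1 ∧ ∀ n : ℕ, 2 ≤ n → ∀ b R : ℝ, b0 < b → a < b → b < 1 → 0 < R →
      TB.aStar n (a * R) (b * R) R ≤ (2 / π + ε) * (1 - b) / log (1 / a) ∧
      TB.aStar n (a * R) (b * R) R < log (4 / π * arctan b) / log (4 / π * arctan a)) :=
  ⟨fun n hn a b R ha hab hb hR => ⟨all_radii3.1 n hn a b R ha hab hb hR, fun _ hk => lower_n hn ha hab hb hR hk⟩,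
    all_radii3.2.1, all_radii3.2.2⟩

end TBP
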