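import Mathlib

/-!
# MP_8b37c6_an, plane case: `(4/π) arctan t ≤ t ^ (2/π)` on `[0,1]`
-/

namespace TBQ

open Real Set

theorem four_arctan_le_rpow {t : ℝ} (h0 : 0 ≤ t) (h1 : t ≤ 1) :
    4 / π * arctan t ≤ t ^ (2 / π) := by
  have hp := pi_pos
  rcases h0.eq_or_lt with h | h0
  · rw [← h, arctan_zero, mul_zero]
    exact rpow_nonneg le_rfl _
  have hd : ∀ s ∈ Ioc (0:ℝ) 1, HasDerivAt (fun s => log (4 / π * arctan s) - 2 / π * log s)
      (4 / π * (1 / (1 + s ^ 2)) / (4 / π * arctan s) - 2 / π * s⁻¹) s := by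
    intro s hs
    have h2 : (4 / π * arctan s) ≠ 0 := by
      have := arctan_pos.2 hs.1
      positivity
    exact (((hasDerivAt_arctan s).const_mul (4 / π)).log h2).sub
      ((hasDerivAt_log hs.1.ne').const_mul (2 / π))
  have hm : MonotoneOn (fun s => log (4 / π * arctan s) - 2 / π * log s) (Ioc (0:ℝ) 1) := by
    apply monotoneOn_of_deriv_nonneg (convex_Ioc 0 1)
    · intro s hs
      exact (hd s hs).continuousAt.continuousWithinAt
    · intro s hs
      rw [interior_Ioc] at hs
      exact (hd s ⟨hs.1, hs.2.le⟩).differentiableAt.differentiableWithinAt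
    · intro s hs
      rw [interior_Ioc] at hs
      rw [(hd s ⟨hs.1, hs.2.le⟩).deriv]
      have hθ := arctan_pos.2 hs.1
      have hθ4 : arctan s < π / 4 := by
        rw [← arctan_one]; exact arctan_strictMono hs.2
      have hj := mul_le_sin (x := 2 * arctan s) (by linarith) (by linarith)
      have hsin : sin (2 * arctan s) = 2 * s / (1 + s ^ 2) := by
        rw [sin_two_mul, sin_arctan, cos_arctan]
        have hq : (0:ℝ) < 1 + s ^ 2 := by positivity
        have hsq : sqrt (1 + s ^ 2) * sqrt (1 + s ^ 2) = 1 + s ^ 2 := mul_self_sqrt hq.le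
        have hsp : 0 < sqrt (1 + s ^ 2) := sqrt_pos.2 hq
        rw [← hsq]
        have : sqrt (sqrt (1 + s ^ 2) * sqrt (1 + s ^ 2)) = sqrt (1 + s ^ 2) :=
          sqrt_mul_self hsp.le
        rw [this]
        field_simp
      rw [hsin] at hj
      have hq : (0:ℝ) < 1 + s ^ 2 := by positivity
      have e1 : 4 / π * (1 / (1 + s ^ 2)) / (4 / π * arctan s) =
          1 / ((1 + s ^ 2) * arctan s) := by
        field_simp
      rw [e1, sub_nonneg, ← div_eq_mul_inv, div_le_div_iff₀ hs.1 (by positivity)]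
      have h5 : 2 / π * (2 * arctan s) * (1 + s ^ 2) ≤ 2 * s := by
        rwa [le_div_iff₀ hq] at hj
      nlinarith
  have h3 := hm (⟨h0, h1⟩ : t ∈ Ioc (0:ℝ) 1) (⟨one_pos, le_rfl⟩ : (1:ℝ) ∈ Ioc (0:ℝ) 1) h1
  simp only [arctan_one, log_one, mul_zero, sub_zero] at h3
  have h4 : 4 / π * (π / 4) = 1 := by field_simp
  rw [h4, log_one] at h3
  have h5 : 0 < 4 / π * arctan t := by
    have := arctan_pos.2 h0
    positivity
  rw [← log_le_log_iff h5 (rpow_pos_of_pos h0 _), log_rpow h0]
  linarith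

end TBQ
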