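import Mathlib

/-!
# MP_8b37c6_an, plane case: a good choice of the parameter c (factor 3)
-/

namespace TBQ

open Real Set

/-- `t ≤ (4/π) arctan t` on `[0,1]`. -/
theorem le_four_arctan {t : ℝ} (h0 : 0 ≤ t) (h1 : t ≤ 1) : t ≤ 4 / π * arctan t := by
  have hc : ConcaveOn ℝ (Icc (0:ℝ) 1) arctan := by
    apply AntitoneOn.concaveOn_of_deriv (convex_Icc 0 1) continuous_arctan.continuousOn
      differentiable_arctan.differentiableOn
    rw [interior_Icc]
    intro x hx y hy hxy
    simp only [Real.deriv_arctan]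
    apply one_div_le_one_div_of_le (by positivity)
    have := hx.1
    nlinarith
  have h := hc.2 (left_mem_Icc.2 zero_le_one) (right_mem_Icc.2 zero_le_one)
    (sub_nonneg.2 h1) h0 (by ring)
  simp only [smul_eq_mul, arctan_zero, mul_zero, mul_one, zero_add, arctan_one] at h
  have hp := pi_pos
  rw [div_mul_eq_mul_div, le_div_iff₀ hp]
  nlinarith

theorem four_arctan_lt_one {t : ℝ} (h1 : t < 1) : 4 / π * arctan t < 1 := by
  have hp := pi_pos
  have h : arctan t < π / 4 := by
    rw [← arctan_one]; exact arctan_strictMono h1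
  rw [div_mul_eq_mul_div, div_lt_one hp]
  linarith

/-- `F t = - log (1 - (4/π) arctan t)`. -/
noncomputable def F (t : ℝ) : ℝ := - log (1 - 4 / π * arctan t)

theorem F_zero : F 0 = 0 := by simp [F]

theorem hasDerivAt_F {t : ℝ} (h1 : t < 1) :
    HasDerivAt F ((4 / π) * (1 / (1 + t ^ 2)) / (1 - 4 / π * arctan t)) t := by
  have h2 : (1 : ℝ) - 4 / π * arctan t ≠ 0 := by
    have := four_arctan_lt_one h1; linarith
  have h3 : HasDerivAt (fun t : ℝ => 1 - 4 / π * arctan t) (-(4 / π * (1 / (1 + t ^ 2)))) t := by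
    have := ((hasDerivAt_arctan t).const_mul (4 / π)).const_sub 1
    exact this
  have h4 := (h3.log h2).neg
  have h5 : -(-(4 / π * (1 / (1 + t ^ 2))) / (1 - 4 / π * arctan t)) =
      (4 / π) * (1 / (1 + t ^ 2)) / (1 - 4 / π * arctan t) := by ring
  rw [h5] at h4
  exact h4

theorem F_convex : ConvexOn ℝ (Ico (0:ℝ) 1) F := by
  have hp := pi_pos
  have hp3 := pi_gt_three
  apply MonotoneOn.convexOn_of_deriv (convex_Ico 0 1)
  · intro x hx
    exact (hasDerivAt_F hx.2).continuousAt.continuousWithinAt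
  · intro x hx
    rw [interior_Ico] at hx
    exact (hasDerivAt_F hx.2).differentiableAt.differentiableWithinAt
  · rw [interior_Ico]
    -- the denominator `(1 + t^2) (1 - (4/π) arctan t)` is antitone
    have hanti : AntitoneOn (fun t : ℝ => (1 + t ^ 2) * (1 - 4 / π * arctan t)) (Ioo (0:ℝ) 1) := by
      apply antitoneOn_of_deriv_nonpos (convex_Ioo 0 1)
      · exact ((continuous_const.add (continuous_pow 2)).mul
          (continuous_const.sub (continuous_const.mul continuous_arctan))).continuousOn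
      · intro t _
        exact (((differentiableAt_id.pow 2).const_add 1).mul
          (((differentiable_arctan t).const_mul (4 / π)).const_sub 1)).differentiableWithinAt
      · rw [interior_Ioo]
        intro t ht
        have h3 : HasDerivAt (fun t : ℝ => 1 - 4 / π * arctan t)
            (-(4 / π * (1 / (1 + t ^ 2)))) t :=
          ((hasDerivAt_arctan t).const_mul (4 / π)).const_sub 1
        have h5 : HasDerivAt (fun t : ℝ => 1 + t ^ 2) (2 * t) t := by
          have := (hasDerivAt_pow 2 t).const_add 1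
          simpa using this
        have h6 := h5.mul h3
        have h7 : deriv (fun t : ℝ => (1 + t ^ 2) * (1 - 4 / π * arctan t)) t =
            2 * t * (1 - 4 / π * arctan t) + (1 + t ^ 2) * (-(4 / π * (1 / (1 + t ^ 2)))) :=
          h6.deriv
        rw [h7]
        have h8 : (1 + t ^ 2) * (-(4 / π * (1 / (1 + t ^ 2)))) = - (4 / π) := by
          have : (1 + t ^ 2 : ℝ) ≠ 0 := by positivity
          field_simp
        rw [h8]
        have h9 := le_four_arctan ht.1.le ht.2.le
        have h10 : (1:ℝ) ≤ 4 / π := by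
          rw [le_div_iff₀ hp]; have := pi_lt_four; linarith
        have h11 : 2 * t * (1 - 4 / π * arctan t) ≤ 2 * t * (1 - t) :=
          mul_le_mul_of_nonneg_left (by linarith) (by linarith [ht.1])
        nlinarith [sq_nonneg (2 * t - 1)]
    intro x hx y hy hxy
    rw [(hasDerivAt_F hx.2).deriv, (hasDerivAt_F hy.2).deriv]
    have key := hanti hx hy hxy
    simp only at key
    have hx1 : 0 < 1 - 4 / π * arctan x := by linarith [four_arctan_lt_one hx.2]
    have hy1 : 0 < 1 - 4 / π * arctan y := by linarith [four_arctan_lt_one hy.2]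
    have e1 : (4 / π) * (1 / (1 + x ^ 2)) / (1 - 4 / π * arctan x) =
        (4 / π) / ((1 + x ^ 2) * (1 - 4 / π * arctan x)) := by
      field_simp
    have e2 : (4 / π) * (1 / (1 + y ^ 2)) / (1 - 4 / π * arctan y) =
        (4 / π) / ((1 + y ^ 2) * (1 - 4 / π * arctan y)) := by
      field_simp
    rw [e1, e2]
    exact div_le_div_of_nonneg_left (by positivity) (by positivity) key

theorem F_le {x y : ℝ} (hy : 0 < y) (hyx : y ≤ x) (hx : x < 1) : F y ≤ y / x * F x := by
  have hx0 : 0 < x := by linarith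
  have h := F_convex.2 (⟨le_rfl, one_pos⟩ : (0:ℝ) ∈ Ico (0:ℝ) 1)
    (⟨hx0.le, hx⟩ : x ∈ Ico (0:ℝ) 1)
    (sub_nonneg.2 ((div_le_one hx0).2 hyx)) (div_nonneg hy.le hx0.le) (by ring)
  simp only [smul_eq_mul, F_zero, mul_zero, zero_add] at h
  rwa [div_mul_cancel₀ y hx0.ne'] at h

theorem F_pos {x : ℝ} (hx0 : 0 < x) (hx : x < 1) : 0 < F x := by
  have h1 := four_arctan_lt_one hx
  have h2 : 0 < arctan x := arctan_pos.2 hx0
  have hp := pi_pos
  have h3 : 0 < 4 / π * arctan x := by positivity
  have := log_neg (show 0 < 1 - 4 / π * arctan x by linarith) (by linarith)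
  unfold F
  linarith

theorem four_arctan_eq {b : ℝ} (h0 : 0 < b) (h1 : b < 1) :
    4 / π * arctan b = 1 - 4 / π * arctan ((1 - b) / (1 + b)) := by
  have hb : (0:ℝ) < 1 + b := by linarith
  have h2 : b * ((1 - b) / (1 + b)) < 1 := by
    rw [← mul_div_assoc, div_lt_one hb]; nlinarith
  have h3 := arctan_add h2
  have h4 : (b + (1 - b) / (1 + b)) / (1 - b * ((1 - b) / (1 + b))) = 1 := by
    have h5 : 1 - b * ((1 - b) / (1 + b)) = b + (1 - b) / (1 + b) := by
      field_simp; ring
    rw [h5, div_self]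
    have : 0 < (1 - b) / (1 + b) := div_pos (by linarith) hb
    linarith
  rw [h4, arctan_one] at h3
  have hp := pi_pos
  have h6 : arctan b = π / 4 - arctan ((1 - b) / (1 + b)) := by linarith
  rw [h6]
  field_simp

theorem two_mul_le {y : ℝ} (h0 : 0 ≤ y) (h1 : y < 1) : 2 * y ≤ - log ((1 - y) / (1 + y)) := by
  have h := Real.hasSum_log_sub_log_of_abs_lt_one (x := y) (by rw [abs_of_nonneg h0]; exact h1)
  have h2 := le_hasSum h 0 (fun j _ => by positivity)
  rw [log_div (by linarith) (by linarith)]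
  simp at h2
  linarith

theorem log_ten_le : log 10 ≤ 5 / 2 := by
  have h1 : (100 : ℝ) ≤ exp 5 := by
    have h2 : exp 5 = exp 1 ^ 5 := by rw [← exp_nat_mul]; norm_num
    rw [h2]
    calc (100:ℝ) ≤ 2.7 ^ 5 := by norm_num
      _ ≤ exp 1 ^ 5 := by
        apply pow_le_pow_left₀ (by norm_num)
        have := exp_one_gt_d9
        linarith
  have h3 : log 100 ≤ 5 := by
    rw [log_le_iff_le_exp (by norm_num)]; exact h1
  have h4 : log 100 = 2 * log 10 := by
    rw [show (100:ℝ) = 10 ^ 2 by norm_num, log_pow]; norm_num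
  linarith

/-- small `a`: take `c = 0` -/
theorem small_case {a b : ℝ} (ha : 0 < a) (hab : a < b) (hb : b < 1) (h5 : a ≤ 1 / 5) :
    log (4 / π * arctan b) / log (4 / π * arctan a) / 3 ≤
      2 / π * (log ((b - 0) / (1 - b * 0)) / log ((a - 0) / (2 * (1 - a * 0)))) := by
  have hp := pi_pos
  have hp3 := pi_gt_d2
  have hp4 := pi_lt_d2
  have hb0 : 0 < b := by linarith
  simp only [sub_zero, mul_zero, div_one, mul_one]
  -- upper part
  have hB : log b < 0 := log_neg hb0 hb
  have h1 : log b ≤ log (4 / π * arctan b) := log_le_log hb0 (le_four_arctan hb0.le hb.le)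
  have h2 : log (4 / π * arctan b) < 0 :=
    log_neg (by have := arctan_pos.2 hb0; positivity) (four_arctan_lt_one hb)
  have hA2 : 4 / π * arctan a ≤ 4 / π * a := by
    apply mul_le_mul_of_nonneg_left _ (by positivity)
    have h0 : 0 ≤ arctan a := (arctan_pos.2 ha).le
    have h01 := le_tan h0 (arctan_lt_pi_div_two a)
    rwa [tan_arctan] at h01
  have h3 : log (4 / π * arctan a) ≤ log (4 / π * a) :=
    log_le_log (by have := arctan_pos.2 ha; positivity) hA2
  have h4 : log (4 / π * a) = log (4 / π) + log a := log_mul (by positivity) ha.ne'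
  have h6 : log (4 / π) ≤ 0.28 := by
    have h7 := log_le_sub_one_of_pos (show 0 < 4 / π by positivity)
    have h8 : 4 / π ≤ 1.28 := by
      rw [div_le_iff₀ hp]; linarith
    linarith
  have h9 : log a ≤ - log 5 := by
    rw [← log_inv]
    exact log_le_log ha (by rw [← one_div]; exact h5)
  have h10 : (1.38 : ℝ) ≤ log 5 := by
    have h11 : log 4 ≤ log 5 := log_le_log (by norm_num) (by norm_num)
    have h12 : log 4 = 2 * log 2 := by
      rw [show (4:ℝ) = 2 ^ 2 by norm_num, log_pow]; norm_num
    have := log_two_gt_d9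
    linarith
  have h13 : log (a / 2) = log a - log 2 := log_div ha.ne' (by norm_num)
  have h14 := log_two_lt_d9
  have h15 := log_two_gt_d9
  set L := - log a with hL
  have hLpos : 1.38 ≤ L := by rw [hL]; linarith
  set P := - log (4 / π * arctan b) with hP
  set Q := - log (4 / π * arctan a) with hQ
  have hPpos : 0 < P := by rw [hP]; linarith
  have hQ1 : L - 0.28 ≤ Q := by rw [hQ, hL]; linarith
  have hP1 : P ≤ - log b := by rw [hP]; linarith
  have e1 : log (4 / π * arctan b) / log (4 / π * arctan a) / 3 = P / Q / 3 := by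
    rw [hP, hQ, neg_div_neg_eq]
  have e2 : 2 / π * (log b / log (a / 2)) = 2 / π * (- log b / (L + log 2)) := by
    rw [h13, hL, ← neg_div_neg_eq (log b)]
    congr 3
    ring
  rw [e1, e2]
  have hQpos : 0 < Q := by linarith
  have hLL : 0 < L + log 2 := by linarith
  -- main inequality: (L + log 2) / 3 ≤ (2/π) Q
  have hkey : (L + log 2) / 3 ≤ 2 / π * Q := by
    have h16 : (0.63 : ℝ) ≤ 2 / π := by
      rw [le_div_iff₀ hp]; linarith
    have h17 : 0.63 * (L - 0.28) ≤ 2 / π * Q :=
      mul_le_mul h16 hQ1 (by linarith) (by positivity)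
    linarith
  calc P / Q / 3 ≤ (- log b) / Q / 3 := by gcongr
    _ = (- log b) * (1 / (3 * Q)) := by field_simp
    _ ≤ (- log b) * (2 / π / (L + log 2)) := by
        apply mul_le_mul_of_nonneg_left _ (by linarith)
        rw [div_le_div_iff₀ (by positivity) hLL]
        nlinarith
    _ = 2 / π * (- log b / (L + log 2)) := by ring

/-- large `a`: take `c` with `(a - c) / (1 - a c) = 1/5` -/
theorem large_case {a b : ℝ} (h5 : 1 / 5 < a) (hab : a < b) (hb : b < 1) :
    ∃ c : ℝ, 0 ≤ c ∧ c < a ∧
      log (4 / π * arctan b) / log (4 / π * arctan a) / 3 ≤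
        2 / π * (log ((b - c) / (1 - b * c)) / log ((a - c) / (2 * (1 - a * c)))) := by
  have hp := pi_pos
  have hp4 := pi_lt_d2
  have ha : 0 < a := by linarith
  have hb0 : 0 < b := by linarith
  have ha1 : a < 1 := by linarith
  have hd : 0 < 1 - a / 5 := by linarith
  refine ⟨(a - 1 / 5) / (1 - a / 5), div_nonneg (by linarith) hd.le, ?_, ?_⟩
  · rw [div_lt_iff₀ hd]; nlinarith
  set c := (a - 1 / 5) / (1 - a / 5) with hc
  have h5a : (5 - a : ℝ) ≠ 0 := by
    have : (0:ℝ) < 5 - a := by linarith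
    exact this.ne'
  have hc' : c = (5 * a - 1) / (5 - a) := by
    rw [hc, div_eq_div_iff hd.ne' h5a]; ring
  have hcd : c * (5 - a) = 5 * a - 1 := by rw [hc', div_mul_cancel₀ _ h5a]
  have hc0 : 0 ≤ c := div_nonneg (by linarith) hd.le
  have hca : c < a := by rw [hc, div_lt_iff₀ hd]; nlinarith
  have hac : 0 < 1 - a * c := by nlinarith
  have hbc : 0 < 1 - b * c := by nlinarith
  have e1 : (a - c) / (2 * (1 - a * c)) = 1 / 10 := by
    rw [div_eq_div_iff (by positivity) (by norm_num)]
    nlinarith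
  set x := (1 - a) / (1 + a) with hx
  set y := (1 - b) / (1 + b) with hy
  have hx0 : 0 < x := div_pos (by linarith) (by linarith)
  have hy0 : 0 < y := div_pos (by linarith) (by linarith)
  have hx1 : x < 1 := by rw [hx, div_lt_one (by linarith)]; linarith
  have hyx : y < x := by
    rw [hy, hx, div_lt_div_iff₀ (by linarith) (by linarith)]; nlinarith
  have e2 : (b - c) / (1 - b * c) = (1 - 2 / 3 * y / x) / (1 + 2 / 3 * y / x) := by
    have h1 : (0:ℝ) < 1 - a := by linarith
    have h2 : (0:ℝ) < 1 + a := by linarith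
    have h3 : (0:ℝ) < 1 + b := by linarith
    have e3 : 2 / 3 * y / x = 2 / 3 * ((1 - b) * (1 + a)) / ((1 + b) * (1 - a)) := by
      rw [hy, hx]; field_simp
    have h4 : (0:ℝ) < (1 + b) * (1 - a) := by positivity
    have h40 : (0:ℝ) ≤ 2 / 3 * ((1 - b) * (1 + a)) / ((1 + b) * (1 - a)) := by
      apply div_nonneg _ h4.le
      have : (0:ℝ) ≤ (1 - b) * (1 + a) := mul_nonneg (by linarith) (by linarith)
      linarith
    rw [e3, div_eq_div_iff hbc.ne' (by linarith)]
    have h41 : (b - c) * (3 * ((1 + b) * (1 - a)) + 2 * ((1 - b) * (1 + a))) =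
        (3 * ((1 + b) * (1 - a)) - 2 * ((1 - b) * (1 + a))) * (1 - b * c) := by
      linear_combination (-(1 + b)) * (1 - b) * hcd
    field_simp
    linarith
  have hy'1 : 2 / 3 * y / x < 1 := by
    rw [div_lt_one hx0]; linarith
  have hy'0 : 0 < 2 / 3 * y / x := by positivity
  have h6 := two_mul_le hy'0.le hy'1
  have e4 : log (1 / 10 : ℝ) = - log 10 := by rw [one_div, log_inv]
  have h10 := log_ten_le
  have h10' : 0 < log 10 := log_pos (by norm_num)
  have e5 : log (4 / π * arctan b) = - F y := by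
    rw [F, neg_neg, four_arctan_eq hb0 hb]
  have e6 : log (4 / π * arctan a) = - F x := by
    rw [F, neg_neg, four_arctan_eq ha ha1]
  rw [e1, e2, e4, e5, e6, neg_div_neg_eq]
  have hFx := F_pos hx0 hx1
  have hFle := F_le hy0 hyx.le hx1
  have h7 : F y / F x ≤ y / x := by
    rw [div_le_iff₀ hFx]; exact hFle
  have h8 : log ((1 - 2 / 3 * y / x) / (1 + 2 / 3 * y / x)) / - log 10 =
      (- log ((1 - 2 / 3 * y / x) / (1 + 2 / 3 * y / x))) / log 10 := by
    rw [div_neg, neg_div]
  rw [h8]
  have h9 : (4 / 3 * (y / x)) / log 10 ≤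
      (- log ((1 - 2 / 3 * y / x) / (1 + 2 / 3 * y / x))) / log 10 := by
    apply div_le_div_of_nonneg_right _ h10'.le
    calc 4 / 3 * (y / x) = 2 * (2 / 3 * y / x) := by ring
      _ ≤ _ := h6
  have h11 : 2 / π * ((4 / 3 * (y / x)) / log 10) ≤
      2 / π * ((- log ((1 - 2 / 3 * y / x) / (1 + 2 / 3 * y / x))) / log 10) :=
    mul_le_mul_of_nonneg_left h9 (by positivity)
  refine le_trans ?_ h11
  have h12 : (y / x) / 3 ≤ 2 / π * ((4 / 3 * (y / x)) / log 10) := by
    have h13 : (1:ℝ) / 3 ≤ 2 / π * (4 / 3 / log 10) := by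
      rw [div_mul_div_comm, div_le_div_iff₀ (by norm_num) (by positivity)]
      have : π * log 10 ≤ 3.15 * (5 / 2) :=
        mul_le_mul hp4.le h10 h10'.le (by norm_num)
      linarith
    have h14 : 0 < y / x := by positivity
    calc (y / x) / 3 = (y / x) * (1 / 3) := by ring
      _ ≤ (y / x) * (2 / π * (4 / 3 / log 10)) := mul_le_mul_of_nonneg_left h13 h14.le
      _ = 2 / π * ((4 / 3 * (y / x)) / log 10) := by ring
  linarith

/-- The choice of the parameter: some member of the family is at least a third of the upper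
bound. -/
theorem exists_c {a b : ℝ} (ha : 0 < a) (hab : a < b) (hb : b < 1) :
    ∃ c : ℝ, 0 ≤ c ∧ c < a ∧
      log (4 / π * arctan b) / log (4 / π * arctan a) / 3 ≤
        2 / π * (log ((b - c) / (1 - b * c)) / log ((a - c) / (2 * (1 - a * c)))) := by
  rcases le_or_gt a (1 / 5) with h | h
  · exact ⟨0, le_rfl, ha, small_case ha hab hb h⟩
  · exact large_case h hab hb

end TBQ
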